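import Mathlib

/-!
# A transcendental meromorphic function without a Yang Lo direction

We construct, for every constant `C`, a meromorphic function `f` on `ℂ` which is not rational, whose
Nevanlinna characteristic satisfies `T(r,f) ≥ C (log r)³` for all large `r` (in particular
`T(r,f)/(log r)² → ∞`), and which has no Yang Lo direction at all.

The function is `f = (Q(iz)/Q(z))^K` with `Q(z) = ∏_{n ≥ 1} (1 - z/100ⁿ)ⁿ` and `K` large.

* All poles of `f` lie on the positive real axis and have large multiplicity; all zeros lie on the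
  negative imaginary axis.
* Near the positive real axis `|f'|` is large (bounded below by a multiple of `|z|`), so that
  `f' = 1` has only finitely many solutions there.
* In every closed sector avoiding the positive real axis, `|f(z)| ≤ |z|^B` for a constant `B`, hence
  some derivative of `f` tends to `0` there (Cauchy's estimate).
* In small sectors around a direction other than the negative imaginary axis, `f` has no zero. Near
  the negative imaginary axis `|f| ≤ 1`, so the value `2` is not taken.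
-/

set_option autoImplicit false

open Filter Topology Complex

namespace Pool.Agent.Results.MP_bf5cf5_an.NoDirection

/-- The sector `D_ε = {z : |arg z - θ₀| < ε}`: the non-zero complex numbers which have an argument
`θ₀ + t` with `|t| < ε`. -/
def sector (θ₀ ε : ℝ) : Set ℂ :=
  {z | ∃ r t : ℝ, 0 < r ∧ |t| < ε ∧ z = r * Complex.exp ((θ₀ + t) * Complex.I)}

/-- `θ₀` is a Yang Lo direction of `f` (a meromorphic function in normal form): for every `ε > 0`
either every `a ∈ ℂ` is taken infinitely often by `f` in `D_ε`, or for every `k ≥ 1` and every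
`w ≠ 0` the value `w` is taken infinitely often by the `k`-th derivative of `f` in `D_ε`.
Solutions are points where `f` is analytic, i.e. not poles. -/
def IsYangLoDirection (f : ℂ → ℂ) (θ₀ : ℝ) : Prop :=
  ∀ ε : ℝ, 0 < ε →
    (∀ a : ℂ, {z ∈ sector θ₀ ε | AnalyticAt ℂ f z ∧ f z = a}.Infinite) ∨
    (∀ k : ℕ, 1 ≤ k → ∀ w : ℂ, w ≠ 0 →
      {z ∈ sector θ₀ ε | AnalyticAt ℂ f z ∧ iteratedDeriv k f z = w}.Infinite)

/-- `f` is a rational function: off a closed discrete set it is a quotient of two polynomials. -/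
def IsRational (f : ℂ → ℂ) : Prop :=
  ∃ p q : Polynomial ℂ, q ≠ 0 ∧ f =ᶠ[codiscrete ℂ] fun z => p.eval z / q.eval z

/-- The factors `(1 - z/100ⁿ)ⁿ`. -/
noncomputable def F (n : ℕ) (z : ℂ) : ℂ := (1 - z / 100 ^ (n + 1)) ^ (n + 1)

/-- Finite products. -/
noncomputable def QM (M : ℕ) (z : ℂ) : ℂ := ∏ n ∈ Finset.range M, F n z

/-- Tails of the product; `Tl 0` is the full product. -/
noncomputable def Tl (m : ℕ) (z : ℂ) : ℂ := ∏' n, F (n + m) z

theorem F_bound (n : ℕ) {z : ℂ} {R : ℝ} (hz : ‖z‖ ≤ R) :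
    ‖F n z - 1‖ ≤ (Real.exp R * R) * ((n + 1 : ℕ) * (1 / 100 : ℝ) ^ (n + 1)) := by
  have hR : 0 ≤ R := (norm_nonneg z).trans hz
  have h1 := Finset.norm_prod_one_add_sub_one_le (Finset.range (n + 1)) (fun _ => -(z / 100 ^ (n + 1)))
  simp only [Finset.prod_const, Finset.card_range, Finset.sum_const, nsmul_eq_mul, norm_neg] at h1
  have e1 : (1 + -(z / 100 ^ (n + 1))) ^ (n + 1) = F n z := by
    rw [F, sub_eq_add_neg]
  rw [e1] at h1
  have e2 : ‖z / 100 ^ (n + 1)‖ = ‖z‖ * (1 / 100 : ℝ) ^ (n + 1) := by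
    rw [norm_div, norm_pow]
    have : ‖(100 : ℂ)‖ = 100 := by norm_num
    rw [this, one_div, inv_pow]
    ring
  rw [e2] at h1
  set x : ℝ := ((n + 1 : ℕ) : ℝ) * (‖z‖ * (1 / 100 : ℝ) ^ (n + 1)) with hx
  have hp : (0:ℝ) ≤ (1 / 100 : ℝ) ^ (n + 1) := by positivity
  have hx0 : 0 ≤ x := by positivity
  have hle : ((n + 1 : ℕ) : ℝ) * (1 / 100 : ℝ) ^ (n + 1) ≤ 1 := by
    have h2 : (n + 1) ≤ 100 ^ (n + 1) := (Nat.lt_pow_self (by norm_num)).le
    have h3 : ((n + 1 : ℕ) : ℝ) ≤ (100 : ℝ) ^ (n + 1) := by exact_mod_cast h2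
    calc ((n + 1 : ℕ) : ℝ) * (1 / 100 : ℝ) ^ (n + 1) ≤ (100 : ℝ) ^ (n + 1) * (1 / 100 : ℝ) ^ (n + 1) := by
          gcongr
      _ = 1 := by rw [← mul_pow]; norm_num
  have hxR : x ≤ R := by
    have : x = ‖z‖ * (((n + 1 : ℕ) : ℝ) * (1 / 100 : ℝ) ^ (n + 1)) := by rw [hx]; ring
    rw [this]
    calc ‖z‖ * (((n + 1 : ℕ) : ℝ) * (1 / 100 : ℝ) ^ (n + 1)) ≤ ‖z‖ * 1 := by gcongr
      _ ≤ R := by linarith
  have hexp : Real.exp x - 1 ≤ x * Real.exp x := by
    have h4 := Real.add_one_le_exp (-x)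
    have h5 : Real.exp (-x) * Real.exp x = 1 := by rw [← Real.exp_add]; simp
    nlinarith [Real.exp_pos x]
  calc ‖F n z - 1‖ ≤ Real.exp x - 1 := h1
    _ ≤ x * Real.exp x := hexp
    _ ≤ x * Real.exp R := by gcongr
    _ ≤ (R * (((n + 1 : ℕ) : ℝ) * (1 / 100 : ℝ) ^ (n + 1))) * Real.exp R := by
        gcongr
        rw [hx]
        calc ((n + 1 : ℕ) : ℝ) * (‖z‖ * (1 / 100 : ℝ) ^ (n + 1))
            = ‖z‖ * (((n + 1 : ℕ) : ℝ) * (1 / 100 : ℝ) ^ (n + 1)) := by ring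
          _ ≤ R * (((n + 1 : ℕ) : ℝ) * (1 / 100 : ℝ) ^ (n + 1)) := by gcongr
    _ = _ := by ring

theorem summable_aux : Summable (fun n : ℕ => ((n + 1 : ℕ) : ℝ) * (1 / 100 : ℝ) ^ (n + 1)) := by
  have h := summable_pow_mul_geometric_of_norm_lt_one (R := ℝ) 1 (r := 1/100) (by norm_num)
  have h2 := (summable_nat_add_iff 1).2 h
  simpa using h2

theorem summable_aux' (R : ℝ) (m : ℕ) : Summable (fun n : ℕ => (Real.exp R * R) *
    (((n + m + 1 : ℕ) : ℝ) * (1 / 100 : ℝ) ^ (n + m + 1))) := by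
  have h := (summable_nat_add_iff m).2 summable_aux
  exact h.mul_left _

theorem F_continuous (n : ℕ) : Continuous (F n) := by
  unfold F
  fun_prop

theorem F_differentiable (n : ℕ) : Differentiable ℂ (F n) := by
  unfold F
  fun_prop

theorem hasProdLU (m : ℕ) (R : ℝ) :
    HasProdLocallyUniformlyOn (fun n z => F (n + m) z) (Tl m) (Metric.ball (0:ℂ) R) := by
  have h := Summable.hasProdLocallyUniformlyOn_nat_one_add (f := fun n z => F (n + m) z - 1)
    (K := Metric.ball (0:ℂ) R) Metric.isOpen_ball (summable_aux' R m)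
    (Eventually.of_forall fun n z hz => F_bound (n + m) (by simpa using (mem_ball_zero_iff.1 hz).le))
    (fun n => ((F_continuous _).sub continuous_const).continuousOn)
  simp only [add_sub_cancel] at h
  exact h

theorem Tl_differentiable (m : ℕ) : Differentiable ℂ (Tl m) := by
  intro z
  have h := (hasProdLU m (‖z‖ + 1)).tendstoLocallyUniformlyOn_finsetRange
  have hd : DifferentiableOn ℂ (Tl m) (Metric.ball (0:ℂ) (‖z‖ + 1)) := by
    apply h.differentiableOn _ Metric.isOpen_ball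
    refine Eventually.of_forall fun N => ?_
    apply Differentiable.differentiableOn
    apply Differentiable.fun_finsetProd
    intro i _
    exact F_differentiable _
  exact hd.differentiableAt (Metric.isOpen_ball.mem_nhds (by simp))

theorem Tl_hasProd (m : ℕ) (z : ℂ) : HasProd (fun n => F (n + m) z) (Tl m z) :=
  (hasProdLU m (‖z‖ + 1)).hasProd (by simp)

theorem tendstoLU : TendstoLocallyUniformlyOn QM (Tl 0) atTop Set.univ := by
  rw [tendstoLocallyUniformlyOn_iff_forall_isCompact isOpen_univ]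
  intro K _ hK
  obtain ⟨R, hR⟩ := hK.isBounded.subset_ball 0
  have h := (hasProdLU 0 R).tendstoLocallyUniformlyOn_finsetRange
  rw [tendstoLocallyUniformlyOn_iff_forall_isCompact Metric.isOpen_ball] at h
  exact h K hR hK

theorem Tl_zero_eq (m : ℕ) (z : ℂ) : Tl 0 z = QM m z * Tl m z := by
  have h0 : Multipliable (fun n => F (n + m) z) := (Tl_hasProd m z).multipliable
  have h1 := Multipliable.prod_mul_tprod_nat_mul' (f := fun n => F n z) (k := m) h0
  exact h1.symm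

theorem Tl_ne_zero (m : ℕ) {z : ℂ} (hz : ∀ n : ℕ, m ≤ n → z ≠ 100 ^ (n + 1)) : Tl m z ≠ 0 := by
  have h := tprod_one_add_ne_zero_of_summable (f := fun n => F (n + m) z - 1) ?_ ?_
  · simpa [Tl] using h
  · intro n
    have h1 : (1 : ℂ) - z / 100 ^ (n + m + 1) ≠ 0 := by
      intro h0
      have h2 : z = 100 ^ (n + m + 1) := by
        have h3 : (100 : ℂ) ^ (n + m + 1) ≠ 0 := pow_ne_zero _ (by norm_num)
        field_simp at h0
        linear_combination -h0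
      exact hz (n + m) (by omega) h2
    simpa [F] using h1
  · exact Summable.of_nonneg_of_le (fun _ => norm_nonneg _) (fun n => F_bound (n + m) le_rfl)
      (summable_aux' ‖z‖ m)



theorem nsq1 (u : ℂ) : ‖1 - u‖ ^ 2 = (1 - u.re) ^ 2 + u.im ^ 2 := by
  rw [Complex.sq_norm, Complex.normSq_apply]
  simp
  ring

theorem nsq2 (u : ℂ) : ‖1 - I * u‖ ^ 2 = (1 + u.im) ^ 2 + u.re ^ 2 := by
  rw [Complex.sq_norm, Complex.normSq_apply]
  simp
  ring

theorem nle_of_sq {a b : ℝ} (hb : 0 ≤ b) (h : a ^ 2 ≤ b ^ 2) : a ≤ b :=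
  le_of_abs_le (abs_le_of_sq_le_sq h hb)

/-- in the half-plane `re + im ≥ 0` we have `|1-u| ≤ |1-iu|`. -/
theorem cmp_pos {u : ℂ} (h : 0 ≤ u.re + u.im) : ‖1 - u‖ ≤ ‖1 - I * u‖ := by
  apply nle_of_sq (norm_nonneg _)
  rw [nsq1, nsq2]; nlinarith

theorem cmp_neg {u : ℂ} (h : u.re + u.im ≤ 0) : ‖1 - I * u‖ ≤ ‖1 - u‖ := by
  apply nle_of_sq (norm_nonneg _)
  rw [nsq2, nsq1]; nlinarith

/-- quantitative comparison in the cone around the positive axis -/
theorem cmp_quant {u : ℂ} (h0 : 0 < u.re) (h1 : |u.im| ≤ u.re / 200) (h2 : 1 ≤ ‖u‖) (h3 : ‖u‖ ≤ 100) :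
    (401 / 400) * ‖1 - u‖ ^ 2 ≤ ‖1 - I * u‖ ^ 2 := by
  have e : ‖u‖ ^ 2 = u.re ^ 2 + u.im ^ 2 := by
    rw [Complex.sq_norm, Complex.normSq_apply]; ring
  have hb := abs_le.1 h1
  have hn : ‖u‖ ≤ (3/2) * u.re := by
    apply nle_of_sq (by positivity)
    rw [e]; nlinarith
  have hle : ‖1 - u‖ ^ 2 ≤ 400 * ‖u‖ := by
    have : ‖1 - u‖ ≤ 2 * ‖u‖ := by
      calc ‖1 - u‖ ≤ ‖(1:ℂ)‖ + ‖u‖ := norm_sub_le _ _
        _ = 1 + ‖u‖ := by rw [norm_one]
        _ ≤ 2 * ‖u‖ := by linarith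
    nlinarith [norm_nonneg (1 - u), norm_nonneg u]
  have d : ‖1 - I * u‖ ^ 2 = ‖1 - u‖ ^ 2 + 2 * (u.re + u.im) := by
    rw [nsq2, nsq1]; ring
  rw [d]
  nlinarith

/-- the log-derivative kernel -/
noncomputable def psi (u : ℂ) : ℂ := u / (1 - u) - I * u / (1 - I * u)

theorem psi_eq {u : ℂ} (h1 : 1 - u ≠ 0) (h2 : 1 - I * u ≠ 0) :
    psi u = (1 - I) * u / ((1 - u) * (1 - I * u)) := by
  unfold psi
  rw [div_sub_div _ _ h1 h2]
  congr 1
  ring

theorem psi_im {u : ℂ} (h1 : 1 - u ≠ 0) (h2 : 1 - I * u ≠ 0) :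
    (psi u).im = u.im / ‖1 - u‖ ^ 2 - u.re / ‖1 - I * u‖ ^ 2 := by
  unfold psi
  rw [Complex.sub_im, Complex.div_im, Complex.div_im, Complex.sq_norm, Complex.sq_norm]
  have e1 : Complex.normSq (1 - u) ≠ 0 := by simpa [Complex.normSq_eq_zero] using h1
  have e2 : Complex.normSq (1 - I * u) ≠ 0 := by simpa [Complex.normSq_eq_zero] using h2
  field_simp
  simp
  ring

theorem psi_im_le {u : ℂ} (h1 : 1 - u ≠ 0) (h2 : 1 - I * u ≠ 0) (h0 : 0 < u.re)
    (hc : |u.im| ≤ u.re / 200) (hbad : ‖1 - I * u‖ ^ 2 ≤ 100 * ‖1 - u‖ ^ 2) :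
    (psi u).im ≤ - (u.re / (2 * ‖1 - I * u‖ ^ 2)) := by
  rw [psi_im h1 h2]
  have p1 : 0 < ‖1 - u‖ ^ 2 := by positivity
  have p2 : 0 < ‖1 - I * u‖ ^ 2 := by positivity
  have hb := (abs_le.1 hc).2
  have : u.im / ‖1 - u‖ ^ 2 ≤ u.re / (2 * ‖1 - I * u‖ ^ 2) := by
    rw [div_le_div_iff₀ p1 (by positivity)]
    nlinarith
  have e : u.re / ‖1 - I * u‖ ^ 2 = 2 * (u.re / (2 * ‖1 - I * u‖ ^ 2)) := by
    field_simp
  rw [e]
  linarith

theorem norm_one_sub_I_le : ‖(1:ℂ) - I‖ ≤ 3 / 2 := by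
  apply nle_of_sq (by norm_num)
  rw [Complex.sq_norm, Complex.normSq_apply]
  simp
  norm_num

theorem one_le_norm_one_sub_I : 1 ≤ ‖(1:ℂ) - I‖ := by
  apply nle_of_sq (norm_nonneg _)
  rw [Complex.sq_norm, Complex.normSq_apply]
  simp

/-- consequences of badness -/
theorem bad_range {u : ℂ} (hbad : 100 * ‖1 - u‖ ^ 2 ≤ ‖1 - I * u‖ ^ 2) :
    9 / 11 ≤ ‖u‖ ∧ ‖u‖ ≤ 11 / 9 := by
  have h1 : 10 * ‖1 - u‖ ≤ ‖1 - I * u‖ := by
    apply nle_of_sq (norm_nonneg _)
    nlinarith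
  have h2 : ‖1 - I * u‖ ≤ 1 + ‖u‖ := by
    calc ‖1 - I * u‖ ≤ ‖(1:ℂ)‖ + ‖I * u‖ := norm_sub_le _ _
      _ = 1 + ‖u‖ := by rw [norm_one, norm_mul, Complex.norm_I, one_mul]
  have h3 : ‖u‖ - 1 ≤ ‖1 - u‖ := by
    have := norm_sub_norm_le u 1
    rw [norm_one, norm_sub_rev] at this
    exact this
  have h4 : 1 - ‖u‖ ≤ ‖1 - u‖ := by
    have := norm_sub_norm_le 1 u
    rw [norm_one] at this
    exact this
  constructor <;> linarith

theorem psi_bad {u : ℂ} (h1 : 1 - u ≠ 0) (h2 : 1 - I * u ≠ 0)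
    (hbad : 100 * ‖1 - u‖ ^ 2 ≤ ‖1 - I * u‖ ^ 2) : 2 ≤ ‖psi u‖ := by
  obtain ⟨ha, hb⟩ := bad_range hbad
  have h3 : 10 * ‖1 - u‖ ≤ ‖1 - I * u‖ := by
    apply nle_of_sq (norm_nonneg _)
    nlinarith
  have h4 : ‖1 - I * u‖ ≤ 1 + ‖u‖ := by
    calc ‖1 - I * u‖ ≤ ‖(1:ℂ)‖ + ‖I * u‖ := norm_sub_le _ _
      _ = 1 + ‖u‖ := by rw [norm_one, norm_mul, Complex.norm_I, one_mul]
  rw [psi_eq h1 h2, norm_div, norm_mul, norm_mul]
  have p1 : 0 < ‖1 - u‖ := norm_pos_iff.2 h1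
  have p2 : 0 < ‖1 - I * u‖ := norm_pos_iff.2 h2
  rw [le_div_iff₀ (by positivity)]
  have h5 := one_le_norm_one_sub_I
  have h6 : 2 * (‖1 - u‖ * ‖1 - I * u‖) ≤ (1 + ‖u‖) ^ 2 / 5 := by nlinarith
  have h7 : (1 + ‖u‖) ^ 2 / 5 ≤ ‖u‖ := by nlinarith
  nlinarith [norm_nonneg u]

theorem psi_small {u : ℂ} (h : ‖u‖ ≤ 1 / 50) : ‖psi u‖ ≤ 2 * ‖u‖ := by
  have q1 : 49 / 50 ≤ ‖1 - u‖ := by
    have := norm_sub_norm_le 1 u
    rw [norm_one] at this
    linarith
  have q2 : 49 / 50 ≤ ‖1 - I * u‖ := by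
    have := norm_sub_norm_le 1 (I * u)
    rw [norm_one, norm_mul, Complex.norm_I, one_mul] at this
    linarith
  have h1 : 1 - u ≠ 0 := norm_pos_iff.1 (by linarith)
  have h2 : 1 - I * u ≠ 0 := norm_pos_iff.1 (by linarith)
  rw [psi_eq h1 h2, norm_div, norm_mul, norm_mul, div_le_iff₀ (by positivity)]
  have := norm_one_sub_I_le
  have h3 : (49/50) * (49/50) ≤ ‖1 - u‖ * ‖1 - I * u‖ := by gcongr
  nlinarith [norm_nonneg u]

theorem psi_large {u : ℂ} (h : 50 ≤ ‖u‖) : ‖psi u‖ ≤ 2 / ‖u‖ := by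
  have q1 : (49 / 50) * ‖u‖ ≤ ‖1 - u‖ := by
    have := norm_sub_norm_le u 1
    rw [norm_one, norm_sub_rev] at this
    linarith
  have q2 : (49 / 50) * ‖u‖ ≤ ‖1 - I * u‖ := by
    have := norm_sub_norm_le (I * u) 1
    rw [norm_one, norm_mul, Complex.norm_I, one_mul, norm_sub_rev] at this
    linarith
  have hu : 0 < ‖u‖ := by linarith
  have h1 : 1 - u ≠ 0 := norm_pos_iff.1 (by nlinarith)
  have h2 : 1 - I * u ≠ 0 := norm_pos_iff.1 (by nlinarith)
  rw [psi_eq h1 h2, norm_div, norm_mul, norm_mul, div_le_div_iff₀ (by positivity) hu]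
  have := norm_one_sub_I_le
  have h3 : ((49/50) * ‖u‖) * ((49/50) * ‖u‖) ≤ ‖1 - u‖ * ‖1 - I * u‖ := by gcongr
  nlinarith [norm_nonneg u]

/-- geometric sums of `(1/50)^|n - n0|` -/
theorem geo_sum (n0 : ℕ) : ∀ M : ℕ, ∑ n ∈ Finset.range M, (1/50 : ℝ) ^ (Nat.dist n n0) ≤
    50/49 + (1/49) * (1 - (1/50 : ℝ) ^ n0) := by
  induction n0 with
  | zero =>
    intro M
    have h : ∀ n, Nat.dist n 0 = n := fun n => by simp [Nat.dist]
    simp only [h]
    have : ∑ n ∈ Finset.range M, (1/50 : ℝ) ^ n ≤ 50/49 := by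
      rw [geom_sum_eq (by norm_num)]
      have : (0:ℝ) ≤ (1/50 : ℝ) ^ M := by positivity
      rw [div_le_iff_of_neg (by norm_num)]
      linarith
    simpa using this
  | succ n0 ih =>
    intro M
    cases M with
    | zero =>
      simp only [Finset.range_zero, Finset.sum_empty]
      have : (1/50 : ℝ) ^ (n0+1) ≤ 1 := pow_le_one₀ (by norm_num) (by norm_num)
      linarith
    | succ M =>
      rw [Finset.sum_range_succ']
      have h : ∀ n, Nat.dist (n+1) (n0+1) = Nat.dist n n0 := fun n => by simp [Nat.dist]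
      simp only [h]
      have h0 : Nat.dist 0 (n0+1) = n0+1 := by simp [Nat.dist]
      rw [h0]
      have := ih M
      rw [pow_succ]
      linarith

theorem geo_sum' (n0 M : ℕ) : ∑ n ∈ Finset.range M, (1/50 : ℝ) ^ (Nat.dist n n0) ≤ 51/49 := by
  have h := geo_sum n0 M
  have : (0:ℝ) ≤ (1/50 : ℝ) ^ n0 := by positivity
  linarith

theorem succ_le_mul_two_pow (n n0 : ℕ) : ((n + 1 : ℕ) : ℝ) ≤ ((n0 + 1 : ℕ) : ℝ) * 2 ^ (Nat.dist n n0) := by
  have h1 : n + 1 ≤ (n0 + 1) * (1 + Nat.dist n n0) := by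
    have : n ≤ n0 + Nat.dist n n0 := by simp only [Nat.dist]; omega
    nlinarith [Nat.zero_le (Nat.dist n n0), Nat.zero_le n0]
  have h2 : 1 + Nat.dist n n0 ≤ 2 ^ (Nat.dist n n0) := by
    have := Nat.lt_two_pow_self (n := Nat.dist n n0)
    omega
  have h3 : n + 1 ≤ (n0 + 1) * 2 ^ (Nat.dist n n0) := h1.trans (Nat.mul_le_mul_left _ h2)
  exact_mod_cast h3



theorem scale_eq (z : ℂ) (n : ℕ) : z / 100 ^ (n + 1) = ((1 / 100 : ℝ) ^ (n + 1) : ℝ) * z := by
  push_cast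
  rw [one_div, inv_pow]
  ring

theorem scale_re (z : ℂ) (n : ℕ) : (z / 100 ^ (n + 1)).re = (1 / 100 : ℝ) ^ (n + 1) * z.re := by
  rw [scale_eq, Complex.re_ofReal_mul]

theorem scale_im (z : ℂ) (n : ℕ) : (z / 100 ^ (n + 1)).im = (1 / 100 : ℝ) ^ (n + 1) * z.im := by
  rw [scale_eq, Complex.im_ofReal_mul]

theorem scale_norm (z : ℂ) (n : ℕ) : ‖z / 100 ^ (n + 1)‖ = (1 / 100 : ℝ) ^ (n + 1) * ‖z‖ := by
  rw [scale_eq, norm_mul, Complex.norm_real, Real.norm_of_nonneg (by positivity)]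

theorem F_I (n : ℕ) (z : ℂ) : F n (I * z) = (1 - I * (z / 100 ^ (n + 1))) ^ (n + 1) := by
  unfold F
  rw [mul_div_assoc]

theorem F_norm_le (n : ℕ) {z : ℂ} (h : 0 ≤ z.re + z.im) : ‖F n z‖ ≤ ‖F n (I * z)‖ := by
  rw [F_I, F, norm_pow, norm_pow]
  apply pow_le_pow_left₀ (norm_nonneg _)
  apply cmp_pos
  rw [scale_re, scale_im, ← mul_add]
  positivity

theorem F_norm_ge (n : ℕ) {z : ℂ} (h : z.re + z.im ≤ 0) : ‖F n (I * z)‖ ≤ ‖F n z‖ := by
  rw [F_I, F, norm_pow, norm_pow]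
  apply pow_le_pow_left₀ (norm_nonneg _)
  apply cmp_neg
  rw [scale_re, scale_im, ← mul_add]
  exact mul_nonpos_of_nonneg_of_nonpos (by positivity) h

theorem QM_tendsto (z : ℂ) : Tendsto (fun M => QM M z) atTop (𝓝 (Tl 0 z)) :=
  (Tl_hasProd 0 z).tendsto_prod_nat

theorem QM_norm (M : ℕ) (z : ℂ) : ‖QM M z‖ = ∏ n ∈ Finset.range M, ‖F n z‖ := by
  unfold QM
  rw [norm_prod]

theorem Q_norm_ge {z : ℂ} (h : z.re + z.im ≤ 0) : ‖Tl 0 (I * z)‖ ≤ ‖Tl 0 z‖ := by
  refine le_of_tendsto_of_tendsto' (QM_tendsto (I * z)).norm (QM_tendsto z).norm fun M => ?_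
  rw [QM_norm, QM_norm]
  exact Finset.prod_le_prod (fun _ _ => norm_nonneg _) (fun n _ => F_norm_ge n h)

theorem Q_norm_quant {z : ℂ} (h0 : 0 < z.re) (h1 : |z.im| ≤ z.re / 200) {N : ℕ} (hN : 1 ≤ N)
    (h2 : (100 : ℝ) ^ N ≤ ‖z‖) (h3 : ‖z‖ ≤ (100 : ℝ) ^ (N + 1)) :
    (401 / 400 : ℝ) ^ N * ‖Tl 0 z‖ ^ 2 ≤ ‖Tl 0 (I * z)‖ ^ 2 := by
  have hpos : 0 ≤ z.re + z.im := by linarith [(abs_le.1 h1).1]
  refine le_of_tendsto_of_tendsto (((QM_tendsto z).norm.pow 2).const_mul _)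
    ((QM_tendsto (I * z)).norm.pow 2) ?_
  filter_upwards [eventually_ge_atTop N] with M hM
  obtain ⟨k, rfl⟩ : ∃ k, N = k + 1 := ⟨N - 1, by omega⟩
  have hk : k ∈ Finset.range M := Finset.mem_range.2 (by omega)
  rw [QM_norm, QM_norm, ← Finset.mul_prod_erase _ _ hk, ← Finset.mul_prod_erase _ _ hk, mul_pow, mul_pow,
    ← mul_assoc]
  have hfac : (401 / 400 : ℝ) ^ (k + 1) * ‖F k z‖ ^ 2 ≤ ‖F k (I * z)‖ ^ 2 := by
    rw [F_I, F, norm_pow, norm_pow, ← pow_mul, ← pow_mul, mul_comm (k + 1) 2, pow_mul, pow_mul, ← mul_pow]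
    apply pow_le_pow_left₀ (by positivity)
    have hp : (0:ℝ) < (1 / 100) ^ (k + 1) := by positivity
    have e100 : (1 / 100 : ℝ) ^ (k + 1) * (100 : ℝ) ^ (k + 1) = 1 := by
      rw [← mul_pow]; norm_num
    apply cmp_quant
    · rw [scale_re]; positivity
    · rw [scale_re, scale_im, abs_mul, abs_of_pos hp]
      have := mul_le_mul_of_nonneg_left h1 hp.le
      linarith
    · rw [scale_norm]
      calc (1:ℝ) = (1 / 100 : ℝ) ^ (k + 1) * (100 : ℝ) ^ (k + 1) := e100.symm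
        _ ≤ _ := by gcongr
    · rw [scale_norm]
      calc (1 / 100 : ℝ) ^ (k + 1) * ‖z‖ ≤ (1 / 100 : ℝ) ^ (k + 1) * (100 : ℝ) ^ (k + 1 + 1) := by gcongr
        _ = ((1 / 100 : ℝ) ^ (k + 1) * (100 : ℝ) ^ (k + 1)) * 100 := by ring
        _ = 100 := by rw [e100]; ring
  have hrest : (∏ n ∈ (Finset.range M).erase k, ‖F n z‖) ^ 2 ≤
      (∏ n ∈ (Finset.range M).erase k, ‖F n (I * z)‖) ^ 2 := by
    apply pow_le_pow_left₀ (Finset.prod_nonneg fun _ _ => norm_nonneg _)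
    exact Finset.prod_le_prod (fun _ _ => norm_nonneg _) (fun n _ => F_norm_le n hpos)
  exact mul_le_mul hfac hrest (by positivity) (by positivity)

/-- upper comparison away from the positive axis -/
theorem ratio_upper {κ : ℝ} (hκ : 0 < κ) {u : ℂ} (hu : u ≠ 0) (h : κ * (1 + ‖u‖) ≤ ‖1 - u‖) :
    ‖1 - I * u‖ ≤ Real.exp ((2 / κ) * min ‖u‖ (1 / ‖u‖)) * ‖1 - u‖ := by
  have hup : 0 < ‖u‖ := norm_pos_iff.2 hu
  have hpos : 0 < ‖1 - u‖ := lt_of_lt_of_le (by positivity) h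
  have a1 : ‖1 - I * u‖ ≤ ‖1 - u‖ + (3/2) * ‖u‖ := by
    have e : 1 - I * u = (1 - u) + (1 - I) * u := by ring
    rw [e]
    refine (norm_add_le _ _).trans ?_
    rw [norm_mul]
    have := norm_one_sub_I_le
    gcongr
  have a2 : ‖1 - I * u‖ ≤ ‖1 - u‖ + 3/2 := by
    have e : 1 - I * u = I * ((1 - u) + (-(1 + I))) := by
      ring_nf
      rw [Complex.I_sq]
      ring
    rw [e, norm_mul, Complex.norm_I, one_mul]
    refine (norm_add_le _ _).trans ?_
    rw [norm_neg]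
    have : ‖(1:ℂ) + I‖ ≤ 3/2 := by
      apply nle_of_sq (by norm_num)
      rw [Complex.sq_norm, Complex.normSq_apply]
      simp
      norm_num
    linarith
  have b : ‖1 - I * u‖ ≤ (1 + (2 / κ) * min ‖u‖ (1 / ‖u‖)) * ‖1 - u‖ := by
    rcases le_total ‖u‖ (1 / ‖u‖) with hm | hm
    · rw [min_eq_left hm]
      have : (3/2) * ‖u‖ ≤ (2 / κ) * ‖u‖ * ‖1 - u‖ := by
        calc (3/2) * ‖u‖ ≤ 2 * ‖u‖ * (1 + ‖u‖) := by nlinarith
          _ = (2 / κ) * ‖u‖ * (κ * (1 + ‖u‖)) := by field_simp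
          _ ≤ (2 / κ) * ‖u‖ * ‖1 - u‖ := by gcongr
      linarith
    · rw [min_eq_right hm]
      have : (3/2 : ℝ) ≤ (2 / κ) * (1 / ‖u‖) * ‖1 - u‖ := by
        calc (3/2 : ℝ) ≤ 2 * ((1 + ‖u‖) / ‖u‖) := by
              rw [mul_div_assoc', le_div_iff₀ hup]
              linarith
          _ = (2 / κ) * (1 / ‖u‖) * (κ * (1 + ‖u‖)) := by field_simp
          _ ≤ (2 / κ) * (1 / ‖u‖) * ‖1 - u‖ := by gcongr
      linarith
  refine b.trans ?_
  gcongr
  rw [add_comm]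
  exact Real.add_one_le_exp _



theorem inv_pow_mul (n : ℕ) : (1 / 100 : ℝ) ^ n * (100 : ℝ) ^ n = 1 := by
  rw [← mul_pow]; norm_num

theorem min_bound {z : ℂ} {N : ℕ} (h2 : (100 : ℝ) ^ N ≤ ‖z‖) (h3 : ‖z‖ ≤ (100 : ℝ) ^ (N + 1)) (n : ℕ) :
    min ‖z / 100 ^ (n + 1)‖ (1 / ‖z / 100 ^ (n + 1)‖) ≤ 100 * (1 / 100 : ℝ) ^ (Nat.dist n N) := by
  have hz : 0 < ‖z‖ := lt_of_lt_of_le (by positivity) h2
  rcases le_or_gt N n with h | h
  · refine (min_le_left _ _).trans ?_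
    have hd : n = N + Nat.dist n N := by simp only [Nat.dist]; omega
    rw [scale_norm]
    calc (1 / 100 : ℝ) ^ (n + 1) * ‖z‖ ≤ (1 / 100 : ℝ) ^ (n + 1) * (100 : ℝ) ^ (N + 1) := by gcongr
      _ = (1 / 100 : ℝ) ^ (N + 1 + Nat.dist n N) * (100 : ℝ) ^ (N + 1) := by
          congr 2; omega
      _ = ((1 / 100 : ℝ) ^ (N + 1) * (100 : ℝ) ^ (N + 1)) * (1 / 100 : ℝ) ^ (Nat.dist n N) := by
          rw [pow_add]; ring
      _ = (1 / 100 : ℝ) ^ (Nat.dist n N) := by rw [inv_pow_mul, one_mul]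
      _ ≤ 100 * (1 / 100 : ℝ) ^ (Nat.dist n N) := by
          have : (0:ℝ) < (1 / 100 : ℝ) ^ (Nat.dist n N) := by positivity
          linarith
  · refine (min_le_right _ _).trans ?_
    have hd : N = n + Nat.dist n N := by simp only [Nat.dist]; omega
    rw [scale_norm, div_le_iff₀ (by positivity)]
    have e : (100 : ℝ) * (1 / 100 : ℝ) ^ (Nat.dist n N) * ((1 / 100 : ℝ) ^ (n + 1) * (100 : ℝ) ^ N) = 1 := by
      have : (1 / 100 : ℝ) ^ (Nat.dist n N) * ((1 / 100 : ℝ) ^ n) = (1 / 100 : ℝ) ^ N := by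
        rw [← pow_add]; congr 1; omega
      calc (100 : ℝ) * (1 / 100 : ℝ) ^ (Nat.dist n N) * ((1 / 100 : ℝ) ^ (n + 1) * (100 : ℝ) ^ N)
          = ((1 / 100 : ℝ) ^ (Nat.dist n N) * ((1 / 100 : ℝ) ^ n)) * (100 : ℝ) ^ N := by
            rw [pow_succ]; ring
        _ = 1 := by rw [this, inv_pow_mul]
    calc (1:ℝ) = (100 : ℝ) * (1 / 100 : ℝ) ^ (Nat.dist n N) * ((1 / 100 : ℝ) ^ (n + 1) * (100 : ℝ) ^ N) := e.symm
      _ ≤ (100 : ℝ) * (1 / 100 : ℝ) ^ (Nat.dist n N) * ((1 / 100 : ℝ) ^ (n + 1) * ‖z‖) := by gcongr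

theorem weight_bound (n N : ℕ) : ((n + 1 : ℕ) : ℝ) * (1 / 100 : ℝ) ^ (Nat.dist n N) ≤
    ((N + 1 : ℕ) : ℝ) * (1 / 50 : ℝ) ^ (Nat.dist n N) := by
  have h := succ_le_mul_two_pow n N
  calc ((n + 1 : ℕ) : ℝ) * (1 / 100 : ℝ) ^ (Nat.dist n N)
      ≤ (((N + 1 : ℕ) : ℝ) * 2 ^ (Nat.dist n N)) * (1 / 100 : ℝ) ^ (Nat.dist n N) := by gcongr
    _ = ((N + 1 : ℕ) : ℝ) * (2 ^ (Nat.dist n N) * (1 / 100 : ℝ) ^ (Nat.dist n N)) := by ring
    _ = ((N + 1 : ℕ) : ℝ) * (1 / 50 : ℝ) ^ (Nat.dist n N) := by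
        rw [← mul_pow]; norm_num

/-- polynomial-type upper bound for `Q(iz)/Q(z)` away from the positive axis -/
theorem Q_upper {κ : ℝ} (hκ : 0 < κ) {z : ℂ} {N : ℕ}
    (h : ∀ n : ℕ, κ * (1 + ‖z / 100 ^ (n + 1)‖) ≤ ‖1 - z / 100 ^ (n + 1)‖)
    (h2 : (100 : ℝ) ^ N ≤ ‖z‖) (h3 : ‖z‖ ≤ (100 : ℝ) ^ (N + 1)) :
    ‖Tl 0 (I * z)‖ ≤ Real.exp (220 / κ) ^ (N + 1) * ‖Tl 0 z‖ := by
  have hz : 0 < ‖z‖ := lt_of_lt_of_le (by positivity) h2
  have hz0 : z ≠ 0 := norm_pos_iff.1 hz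
  refine le_of_tendsto_of_tendsto' (QM_tendsto (I * z)).norm ((QM_tendsto z).norm.const_mul _) fun M => ?_
  have step : ∀ n, ‖F n (I * z)‖ ≤
      Real.exp ((200 / κ) * ((N + 1 : ℕ) : ℝ) * (1 / 50 : ℝ) ^ (Nat.dist n N)) * ‖F n z‖ := by
    intro n
    have hu : z / 100 ^ (n + 1) ≠ 0 := div_ne_zero hz0 (pow_ne_zero _ (by norm_num))
    rw [F_I, F, norm_pow, norm_pow]
    calc ‖1 - I * (z / 100 ^ (n + 1))‖ ^ (n + 1)
        ≤ (Real.exp ((2 / κ) * min ‖z / 100 ^ (n + 1)‖ (1 / ‖z / 100 ^ (n + 1)‖)) *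
            ‖1 - z / 100 ^ (n + 1)‖) ^ (n + 1) := by
          apply pow_le_pow_left₀ (norm_nonneg _)
          exact ratio_upper hκ hu (h n)
      _ = Real.exp (((n + 1 : ℕ) : ℝ) * ((2 / κ) * min ‖z / 100 ^ (n + 1)‖ (1 / ‖z / 100 ^ (n + 1)‖))) *
            ‖1 - z / 100 ^ (n + 1)‖ ^ (n + 1) := by
          rw [mul_pow, ← Real.exp_nat_mul]
      _ ≤ Real.exp ((200 / κ) * ((N + 1 : ℕ) : ℝ) * (1 / 50 : ℝ) ^ (Nat.dist n N)) *
            ‖1 - z / 100 ^ (n + 1)‖ ^ (n + 1) := by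
          apply mul_le_mul_of_nonneg_right _ (by positivity)
          apply Real.exp_le_exp.2
          calc ((n + 1 : ℕ) : ℝ) * ((2 / κ) * min ‖z / 100 ^ (n + 1)‖ (1 / ‖z / 100 ^ (n + 1)‖))
              ≤ ((n + 1 : ℕ) : ℝ) * ((2 / κ) * (100 * (1 / 100 : ℝ) ^ (Nat.dist n N))) := by
                gcongr
                exact min_bound h2 h3 n
            _ = (200 / κ) * (((n + 1 : ℕ) : ℝ) * (1 / 100 : ℝ) ^ (Nat.dist n N)) := by ring
            _ ≤ (200 / κ) * (((N + 1 : ℕ) : ℝ) * (1 / 50 : ℝ) ^ (Nat.dist n N)) := by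
                have := weight_bound n N
                gcongr
            _ = (200 / κ) * ((N + 1 : ℕ) : ℝ) * (1 / 50 : ℝ) ^ (Nat.dist n N) := by ring
  rw [QM_norm, QM_norm]
  calc ∏ n ∈ Finset.range M, ‖F n (I * z)‖
      ≤ ∏ n ∈ Finset.range M, (Real.exp ((200 / κ) * ((N + 1 : ℕ) : ℝ) * (1 / 50 : ℝ) ^ (Nat.dist n N)) * ‖F n z‖) :=
        Finset.prod_le_prod (fun _ _ => norm_nonneg _) (fun n _ => step n)
    _ = Real.exp (∑ n ∈ Finset.range M, (200 / κ) * ((N + 1 : ℕ) : ℝ) * (1 / 50 : ℝ) ^ (Nat.dist n N)) *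
          ∏ n ∈ Finset.range M, ‖F n z‖ := by
        rw [Finset.prod_mul_distrib, Real.exp_sum]
    _ ≤ _ := by
        apply mul_le_mul_of_nonneg_right _ (Finset.prod_nonneg fun _ _ => norm_nonneg _)
        rw [← Real.exp_nat_mul, ← Finset.mul_sum]
        apply Real.exp_le_exp.2
        calc (200 / κ) * ((N + 1 : ℕ) : ℝ) * ∑ n ∈ Finset.range M, (1 / 50 : ℝ) ^ (Nat.dist n N)
            ≤ (200 / κ) * ((N + 1 : ℕ) : ℝ) * (51 / 49) := by
              have := geo_sum' N M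
              gcongr
          _ ≤ ((N + 1 : ℕ) : ℝ) * (220 / κ) := by
              have : (0:ℝ) ≤ ((N + 1 : ℕ) : ℝ) * (1 / κ) := by positivity
              have e1 : (200 / κ) * ((N + 1 : ℕ) : ℝ) * (51 / 49) = (10200/49) * (((N + 1 : ℕ) : ℝ) * (1 / κ)) := by ring
              have e2 : ((N + 1 : ℕ) : ℝ) * (220 / κ) = 220 * (((N + 1 : ℕ) : ℝ) * (1 / κ)) := by ring
              rw [e1, e2]
              linarith

/-- the key lower bound for the logarithmic derivative of finite products -/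
theorem sum_psi_lower {z : ℂ} (h0 : 0 < z.re) (h1 : |z.im| ≤ z.re / 200) {N : ℕ} (hN : 1 ≤ N)
    (h2 : (100 : ℝ) ^ N ≤ ‖z‖) (h3 : ‖z‖ ≤ (100 : ℝ) ^ (N + 1)) (hne : ∀ n : ℕ, z ≠ 100 ^ (n + 1))
    {M : ℕ} (hM : N ≤ M) :
    1 / 1000 ≤ ‖∑ n ∈ Finset.range M, ((n + 1 : ℕ) : ℂ) * psi (z / 100 ^ (n + 1))‖ := by
  have hz : 0 < ‖z‖ := lt_of_lt_of_le (by positivity) h2
  have c100 : ∀ n : ℕ, (100 : ℂ) ^ (n + 1) ≠ 0 := fun n => pow_ne_zero _ (by norm_num)
  have d1 : ∀ n : ℕ, 1 - z / 100 ^ (n + 1) ≠ 0 := by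
    intro n h
    apply hne n
    have := c100 n
    field_simp at h
    linear_combination -h
  have d2 : ∀ n : ℕ, 1 - I * (z / 100 ^ (n + 1)) ≠ 0 := by
    intro n h
    have hre := congrArg Complex.im h
    have : (z / 100 ^ (n + 1)).re = 0 := by
      simpa using hre
    rw [scale_re] at this
    have hp : (0:ℝ) < (1 / 100) ^ (n + 1) := by positivity
    have := mul_pos hp h0
    linarith
  have cone : ∀ n : ℕ, 0 < (z / 100 ^ (n + 1)).re ∧
      |(z / 100 ^ (n + 1)).im| ≤ (z / 100 ^ (n + 1)).re / 200 := by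
    intro n
    have hp : (0:ℝ) < (1 / 100) ^ (n + 1) := by positivity
    rw [scale_re, scale_im, abs_mul, abs_of_pos hp]
    refine ⟨by positivity, ?_⟩
    have := mul_le_mul_of_nonneg_left h1 hp.le
    linarith
  by_cases hbad : ∃ n0 ∈ Finset.range M,
      100 * ‖1 - z / 100 ^ (n0 + 1)‖ ^ 2 ≤ ‖1 - I * (z / 100 ^ (n0 + 1))‖ ^ 2
  · obtain ⟨n0, hn0, hb⟩ := hbad
    obtain ⟨ra, rb⟩ := bad_range hb
    rw [scale_norm] at ra rb
    have hmain := psi_bad (d1 n0) (d2 n0) hb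
    -- other terms
    have hoth : ∀ n, n ≠ n0 → ‖((n + 1 : ℕ) : ℂ) * psi (z / 100 ^ (n + 1))‖ ≤
        (3 * ((n0 + 1 : ℕ) : ℝ)) * (1 / 50 : ℝ) ^ (Nat.dist n n0) := by
      intro n hn
      have hpsi : ‖psi (z / 100 ^ (n + 1))‖ ≤ 3 * (1 / 100 : ℝ) ^ (Nat.dist n n0) := by
        rcases lt_or_gt_of_ne hn with hlt | hgt
        · -- n < n0: large argument
          have hd : n0 = n + Nat.dist n n0 := by simp only [Nat.dist]; omega
          have hd1 : 1 ≤ Nat.dist n n0 := by simp only [Nat.dist]; omega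
          have e : ‖z / 100 ^ (n + 1)‖ = (100 : ℝ) ^ (Nat.dist n n0) * ((1 / 100 : ℝ) ^ (n0 + 1) * ‖z‖) := by
            rw [scale_norm]
            have : (1 / 100 : ℝ) ^ (n0 + 1) = (1 / 100 : ℝ) ^ (n + 1) * (1 / 100 : ℝ) ^ (Nat.dist n n0) := by
              rw [← pow_add]; congr 1; omega
            rw [this]
            have h5 := inv_pow_mul (Nat.dist n n0)
            calc (1 / 100 : ℝ) ^ (n + 1) * ‖z‖
                = ((1 / 100 : ℝ) ^ (Nat.dist n n0) * (100 : ℝ) ^ (Nat.dist n n0)) * ((1 / 100 : ℝ) ^ (n + 1) * ‖z‖) := by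
                  rw [h5, one_mul]
              _ = _ := by ring
          have hbig : (81 : ℝ) ≤ ‖z / 100 ^ (n + 1)‖ := by
            rw [e]
            have : (100 : ℝ) ≤ (100 : ℝ) ^ (Nat.dist n n0) := by
              calc (100 : ℝ) = (100 : ℝ) ^ 1 := by norm_num
                _ ≤ _ := pow_le_pow_right₀ (by norm_num) hd1
            nlinarith
          refine (psi_large (by linarith)).trans ?_
          rw [div_le_iff₀ (by linarith), e]
          have h5 := inv_pow_mul (Nat.dist n n0)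
          calc (2:ℝ) ≤ 3 * (9 / 11) := by norm_num
            _ ≤ 3 * ((1 / 100 : ℝ) ^ (n0 + 1) * ‖z‖) := by linarith
            _ = 3 * ((1 / 100 : ℝ) ^ (Nat.dist n n0) * (100 : ℝ) ^ (Nat.dist n n0)) *
                  ((1 / 100 : ℝ) ^ (n0 + 1) * ‖z‖) := by rw [h5]; ring
            _ = _ := by ring
        · -- n > n0: small argument
          have hd : n = n0 + Nat.dist n n0 := by simp only [Nat.dist]; omega
          have hd1 : 1 ≤ Nat.dist n n0 := by simp only [Nat.dist]; omega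
          have e : ‖z / 100 ^ (n + 1)‖ = (1 / 100 : ℝ) ^ (Nat.dist n n0) * ((1 / 100 : ℝ) ^ (n0 + 1) * ‖z‖) := by
            rw [scale_norm, ← mul_assoc, ← pow_add]
            congr 2; omega
          have hsm : (1 / 100 : ℝ) ^ (Nat.dist n n0) ≤ 1 / 100 := by
            calc (1 / 100 : ℝ) ^ (Nat.dist n n0) ≤ (1 / 100 : ℝ) ^ 1 :=
                  pow_le_pow_of_le_one (by norm_num) (by norm_num) hd1
              _ = 1 / 100 := by norm_num
          have hp : (0:ℝ) < (1 / 100 : ℝ) ^ (Nat.dist n n0) := by positivity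
          have hle : ‖z / 100 ^ (n + 1)‖ ≤ 1 / 50 := by
            rw [e]
            nlinarith
          refine (psi_small hle).trans ?_
          rw [e]
          nlinarith
      rw [norm_mul, Complex.norm_natCast]
      calc ((n + 1 : ℕ) : ℝ) * ‖psi (z / 100 ^ (n + 1))‖
          ≤ ((n + 1 : ℕ) : ℝ) * (3 * (1 / 100 : ℝ) ^ (Nat.dist n n0)) := by gcongr
        _ = 3 * (((n + 1 : ℕ) : ℝ) * (1 / 100 : ℝ) ^ (Nat.dist n n0)) := by ring
        _ ≤ 3 * (((n0 + 1 : ℕ) : ℝ) * (1 / 50 : ℝ) ^ (Nat.dist n n0)) := by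
            have := weight_bound n n0
            gcongr
        _ = _ := by ring
    rw [← Finset.add_sum_erase _ _ hn0]
    have hrest : ‖∑ n ∈ (Finset.range M).erase n0, ((n + 1 : ℕ) : ℂ) * psi (z / 100 ^ (n + 1))‖ ≤
        (3 * ((n0 + 1 : ℕ) : ℝ)) * (2 / 49) := by
      calc ‖∑ n ∈ (Finset.range M).erase n0, ((n + 1 : ℕ) : ℂ) * psi (z / 100 ^ (n + 1))‖
          ≤ ∑ n ∈ (Finset.range M).erase n0, ‖((n + 1 : ℕ) : ℂ) * psi (z / 100 ^ (n + 1))‖ := norm_sum_le _ _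
        _ ≤ ∑ n ∈ (Finset.range M).erase n0, (3 * ((n0 + 1 : ℕ) : ℝ)) * (1 / 50 : ℝ) ^ (Nat.dist n n0) :=
            Finset.sum_le_sum fun n hn => hoth n (Finset.ne_of_mem_erase hn)
        _ = (3 * ((n0 + 1 : ℕ) : ℝ)) * ∑ n ∈ (Finset.range M).erase n0, (1 / 50 : ℝ) ^ (Nat.dist n n0) := by
            rw [Finset.mul_sum]
        _ ≤ _ := by
            gcongr
            have h6 := geo_sum' n0 M
            rw [← Finset.add_sum_erase _ _ hn0] at h6
            have h7 : Nat.dist n0 n0 = 0 := Nat.dist_self _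
            rw [h7, pow_zero] at h6
            linarith
    have hfirst : 2 * ((n0 + 1 : ℕ) : ℝ) ≤ ‖((n0 + 1 : ℕ) : ℂ) * psi (z / 100 ^ (n0 + 1))‖ := by
      rw [norm_mul, Complex.norm_natCast]
      have : (0:ℝ) ≤ ((n0 + 1 : ℕ) : ℝ) := by positivity
      nlinarith
    have htri := norm_sub_norm_le (((n0 + 1 : ℕ) : ℂ) * psi (z / 100 ^ (n0 + 1)))
      (-(∑ n ∈ (Finset.range M).erase n0, ((n + 1 : ℕ) : ℂ) * psi (z / 100 ^ (n + 1))))
    rw [norm_neg, sub_neg_eq_add] at htri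
    have h8 : (1:ℝ) ≤ ((n0 + 1 : ℕ) : ℝ) := by
      have : 1 ≤ n0 + 1 := by omega
      exact_mod_cast this
    linarith
  · -- no bad index
    push Not at hbad
    obtain ⟨k, rfl⟩ : ∃ k, N = k + 1 := ⟨N - 1, by omega⟩
    have hk : k ∈ Finset.range M := Finset.mem_range.2 (by omega)
    have hterm : ∀ n ∈ Finset.range M, (((n + 1 : ℕ) : ℂ) * psi (z / 100 ^ (n + 1))).im ≤
        -(((n + 1 : ℕ) : ℝ) * ((z / 100 ^ (n + 1)).re / (2 * ‖1 - I * (z / 100 ^ (n + 1))‖ ^ 2))) := by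
      intro n hn
      have e : (((n + 1 : ℕ) : ℂ) * psi (z / 100 ^ (n + 1))).im = ((n + 1 : ℕ) : ℝ) * (psi (z / 100 ^ (n + 1))).im := by
        rw [← Complex.ofReal_natCast, Complex.im_ofReal_mul]
      rw [e, ← mul_neg]
      gcongr
      exact psi_im_le (d1 n) (d2 n) (cone n).1 (cone n).2 (hbad n hn).le
    have hneg : ∀ n ∈ Finset.range M, (((n + 1 : ℕ) : ℂ) * psi (z / 100 ^ (n + 1))).im ≤ 0 := by
      intro n hn
      refine (hterm n hn).trans ?_
      have := (cone n).1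
      have h9 : 0 ≤ ((n + 1 : ℕ) : ℝ) * ((z / 100 ^ (n + 1)).re / (2 * ‖1 - I * (z / 100 ^ (n + 1))‖ ^ 2)) := by
        positivity
      linarith
    have hsum : (∑ n ∈ Finset.range M, ((n + 1 : ℕ) : ℂ) * psi (z / 100 ^ (n + 1))).im ≤
        (((k + 1 : ℕ) : ℂ) * psi (z / 100 ^ (k + 1))).im := by
      rw [Complex.im_sum, ← Finset.add_sum_erase _ _ hk]
      have : ∑ n ∈ (Finset.range M).erase k, (((n + 1 : ℕ) : ℂ) * psi (z / 100 ^ (n + 1))).im ≤ 0 :=
        Finset.sum_nonpos fun n hn => hneg n (Finset.mem_of_mem_erase hn)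
      linarith
    have hk1 := hterm k hk
    -- size of the main term
    set u : ℂ := z / 100 ^ (k + 1) with hu
    have hun1 : 1 ≤ ‖u‖ := by
      rw [hu, scale_norm]
      calc (1:ℝ) = (1 / 100 : ℝ) ^ (k + 1) * (100 : ℝ) ^ (k + 1) := (inv_pow_mul _).symm
        _ ≤ _ := by gcongr
    have hun2 : ‖u‖ ≤ 100 := by
      rw [hu, scale_norm]
      calc (1 / 100 : ℝ) ^ (k + 1) * ‖z‖ ≤ (1 / 100 : ℝ) ^ (k + 1) * (100 : ℝ) ^ (k + 1 + 1) := by gcongr
        _ = ((1 / 100 : ℝ) ^ (k + 1) * (100 : ℝ) ^ (k + 1)) * 100 := by ring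
        _ = 100 := by rw [inv_pow_mul]; ring
    obtain ⟨cu1, cu2⟩ := cone k
    rw [← hu] at cu1 cu2
    have hb2 := abs_le.1 cu2
    have enu : ‖u‖ ^ 2 = u.re ^ 2 + u.im ^ 2 := by
      rw [Complex.sq_norm, Complex.normSq_apply]; ring
    have hre : ‖u‖ ≤ (11/10) * u.re := by
      apply nle_of_sq (by positivity)
      rw [enu]; nlinarith
    have hden : ‖1 - I * u‖ ^ 2 ≤ 400 * ‖u‖ := by
      have : ‖1 - I * u‖ ≤ 2 * ‖u‖ := by
        calc ‖1 - I * u‖ ≤ ‖(1:ℂ)‖ + ‖I * u‖ := norm_sub_le _ _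
          _ = 1 + ‖u‖ := by rw [norm_one, norm_mul, Complex.norm_I, one_mul]
          _ ≤ 2 * ‖u‖ := by linarith
      nlinarith [norm_nonneg (1 - I * u), norm_nonneg u]
    have hden0 : 0 < ‖1 - I * u‖ ^ 2 := by
      have := d2 k
      rw [← hu] at this
      positivity
    have hmain : (1 / 1000 : ℝ) ≤ u.re / (2 * ‖1 - I * u‖ ^ 2) := by
      rw [div_le_div_iff₀ (by norm_num) (by positivity)]
      nlinarith
    have hk2 : (1 / 1000 : ℝ) ≤ ((k + 1 : ℕ) : ℝ) * (u.re / (2 * ‖1 - I * u‖ ^ 2)) := by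
      have h8 : (1:ℝ) ≤ ((k + 1 : ℕ) : ℝ) := by
        have : 1 ≤ k + 1 := by omega
        exact_mod_cast this
      nlinarith
    have habs := Complex.abs_im_le_norm (∑ n ∈ Finset.range M, ((n + 1 : ℕ) : ℂ) * psi (z / 100 ^ (n + 1)))
    have := neg_abs_le (∑ n ∈ Finset.range M, ((n + 1 : ℕ) : ℂ) * psi (z / 100 ^ (n + 1))).im
    linarith



/-- `g(z) = Q(iz) / Q(z)` -/
noncomputable def gf (z : ℂ) : ℂ := Tl 0 (I * z) / Tl 0 z

/-- the counterexample `f = g^K` -/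
noncomputable def ff (K : ℕ) (z : ℂ) : ℂ := (gf z) ^ K

theorem c100 (n : ℕ) : (100 : ℂ) ^ (n + 1) ≠ 0 := pow_ne_zero _ (by norm_num)

theorem pow_inj {m n : ℕ} (h : (100 : ℂ) ^ (m + 1) = 100 ^ (n + 1)) : m = n := by
  have h1 : (100 : ℝ) ^ (m + 1) = 100 ^ (n + 1) := by exact_mod_cast h
  have h2 := pow_right_injective₀ (by norm_num : (0:ℝ) < 100) (by norm_num) h1
  omega

theorem I_mul_ne {z : ℂ} (h : 0 < z.re) (n : ℕ) : I * z ≠ 100 ^ (n + 1) := by
  intro h1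
  have h2 := congrArg Complex.im h1
  have h3 : ((100 : ℂ) ^ (n + 1)).im = 0 := by
    have : (100 : ℂ) ^ (n + 1) = ((100 ^ (n + 1) : ℝ) : ℂ) := by push_cast; rfl
    rw [this, Complex.ofReal_im]
  rw [h3] at h2
  simp at h2
  linarith

theorem factor_at (n : ℕ) (z : ℂ) : Tl 0 z = (z - 100 ^ (n + 1)) ^ (n + 1) *
    ((-1 / 100 ^ (n + 1)) ^ (n + 1) * QM n z * Tl (n + 1) z) := by
  have h1 := Tl_zero_eq (n + 1) z
  have h2 : QM (n + 1) z = QM n z * F n z := Finset.prod_range_succ _ _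
  have h3 : F n z = (z - 100 ^ (n + 1)) ^ (n + 1) * (-1 / 100 ^ (n + 1)) ^ (n + 1) := by
    rw [← mul_pow, F]
    congr 1
    have := c100 n
    field_simp
    ring
  rw [h1, h2, h3]
  ring

theorem QM_differentiable (M : ℕ) : Differentiable ℂ (QM M) := by
  unfold QM
  apply Differentiable.fun_finsetProd
  intro i _
  exact F_differentiable i

theorem cofactor_ne_zero (n : ℕ) :
    (-1 / 100 ^ (n + 1) : ℂ) ^ (n + 1) * QM n (100 ^ (n + 1)) * Tl (n + 1) (100 ^ (n + 1)) ≠ 0 := by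
  apply mul_ne_zero
  · apply mul_ne_zero
    · exact pow_ne_zero _ (div_ne_zero (by norm_num) (c100 n))
    · unfold QM
      rw [Finset.prod_ne_zero_iff]
      intro j hj
      rw [Finset.mem_range] at hj
      unfold F
      apply pow_ne_zero
      intro h0
      have h2 : (100 : ℂ) ^ (n + 1) = 100 ^ (j + 1) := by
        have := c100 j
        field_simp at h0
        linear_combination -h0
      have := pow_inj h2
      omega
  · apply Tl_ne_zero
    intro k hk h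
    have := pow_inj h
    omega

theorem Q_pole (n : ℕ) : Tl 0 (100 ^ (n + 1)) = 0 := by
  rw [factor_at n]
  simp

theorem Q_ne {z : ℂ} (h : ∀ n : ℕ, z ≠ 100 ^ (n + 1)) : Tl 0 z ≠ 0 :=
  Tl_ne_zero 0 (fun n _ => h n)

theorem gf_differentiableAt {z : ℂ} (h : Tl 0 z ≠ 0) : DifferentiableAt ℂ gf z := by
  unfold gf
  apply DifferentiableAt.fun_div _ (Tl_differentiable 0 z) h
  exact ((Tl_differentiable 0).comp (differentiable_id.const_mul I)) z

theorem ff_differentiableAt (K : ℕ) {z : ℂ} (h : Tl 0 z ≠ 0) : DifferentiableAt ℂ (ff K) z := by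
  unfold ff
  exact (gf_differentiableAt h).fun_pow K

theorem Q_isOpen : IsOpen {z : ℂ | Tl 0 z ≠ 0} :=
  isOpen_ne_fun (Tl_differentiable 0).continuous continuous_const

theorem ff_analyticAt (K : ℕ) {z : ℂ} (h : Tl 0 z ≠ 0) : AnalyticAt ℂ (ff K) z := by
  rw [Complex.analyticAt_iff_eventually_differentiableAt]
  filter_upwards [Q_isOpen.mem_nhds h] with w hw
  exact ff_differentiableAt K hw

theorem ff_meromorphicAt (K : ℕ) (z : ℂ) : MeromorphicAt (ff K) z := by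
  unfold ff gf
  have h1 : MeromorphicAt (fun z => Tl 0 (I * z)) z := by
    apply AnalyticAt.meromorphicAt
    exact (((Tl_differentiable 0).comp (differentiable_id.const_mul I)).analyticAt z)
  have h2 : MeromorphicAt (Tl 0) z := ((Tl_differentiable 0).analyticAt z).meromorphicAt
  exact (h1.fun_div h2).fun_pow K

theorem ff_order (K : ℕ) (n : ℕ) :
    meromorphicOrderAt (ff K) (100 ^ (n + 1)) = ((-((n + 1) * K : ℕ) : ℤ) : WithTop ℤ) := by
  rw [meromorphicOrderAt_eq_int_iff (ff_meromorphicAt K _)]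
  set p : ℂ := 100 ^ (n + 1) with hp
  set h : ℂ → ℂ := fun z => (-1 / 100 ^ (n + 1)) ^ (n + 1) * QM n z * Tl (n + 1) z with hh
  have hhp : h p ≠ 0 := cofactor_ne_zero n
  have hhd : Differentiable ℂ h :=
    ((QM_differentiable n).const_mul _).mul (Tl_differentiable (n + 1))
  have hnum : Tl 0 (I * p) ≠ 0 := by
    apply Q_ne
    intro k
    apply I_mul_ne
    have : p = ((100 ^ (n + 1) : ℝ) : ℂ) := by rw [hp]; push_cast; rfl
    rw [this, Complex.ofReal_re]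
    positivity
  refine ⟨fun z => (Tl 0 (I * z) / h z) ^ K, ?_, ?_, ?_⟩
  · apply AnalyticAt.pow
    apply AnalyticAt.div _ (hhd.analyticAt p) hhp
    exact (((Tl_differentiable 0).comp (differentiable_id.const_mul I)).analyticAt p)
  · exact pow_ne_zero _ (div_ne_zero hnum hhp)
  · filter_upwards [self_mem_nhdsWithin] with z hz
    have hz' : z - p ≠ 0 := sub_ne_zero.2 hz
    have e : Tl 0 z = (z - p) ^ (n + 1) * h z := factor_at n z
    rw [ff, gf, e, smul_eq_mul, zpow_neg, zpow_natCast, pow_mul, ← inv_pow, ← mul_pow]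
    congr 1
    field_simp

theorem ff_order_neg {K : ℕ} (hK : 1 ≤ K) (n : ℕ) : meromorphicOrderAt (ff K) (100 ^ (n + 1)) < 0 := by
  rw [ff_order]
  have : (0:ℤ) < (((n + 1) * K : ℕ) : ℤ) := by positivity
  have h2 : (-(((n + 1) * K : ℕ) : ℤ)) < 0 := by omega
  exact_mod_cast h2

theorem ff_pole_value {K : ℕ} (hK : 1 ≤ K) (n : ℕ) : ff K (100 ^ (n + 1)) = 0 := by
  rw [ff, gf, Q_pole, div_zero, zero_pow (by omega)]

theorem ff_not_analyticAt {K : ℕ} (hK : 1 ≤ K) {z : ℂ} (h : Tl 0 z = 0) : ¬ AnalyticAt ℂ (ff K) z := by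
  intro ha
  have : ∃ n : ℕ, z = 100 ^ (n + 1) := by
    by_contra hne
    push Not at hne
    exact Q_ne hne h
  obtain ⟨n, rfl⟩ := this
  have h1 := ha.meromorphicOrderAt_nonneg
  have h2 := ff_order_neg hK n
  exact absurd h1 (not_le.2 h2)

theorem ff_NF {K : ℕ} (hK : 1 ≤ K) : MeromorphicNFOn (ff K) Set.univ := by
  intro z _
  rw [meromorphicNFAt_iff_analyticAt_or]
  by_cases h : Tl 0 z = 0
  · right
    have : ∃ n : ℕ, z = 100 ^ (n + 1) := by
      by_contra hne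
      push Not at hne
      exact Q_ne hne h
    obtain ⟨n, rfl⟩ := this
    exact ⟨ff_meromorphicAt K _, ff_order_neg hK n, ff_pole_value hK n⟩
  · left
    exact ff_analyticAt K h

/-! ### logarithmic derivative -/

theorem logDeriv_F (n : ℕ) {z : ℂ} (hz : z ≠ 100 ^ (n + 1)) :
    z * logDeriv (F n) z = ((n + 1 : ℕ) : ℂ) * (-(z / 100 ^ (n + 1) / (1 - z / 100 ^ (n + 1)))) := by
  have h1 : (1 : ℂ) - z / 100 ^ (n + 1) ≠ 0 := by
    intro h
    apply hz
    have := c100 n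
    field_simp at h
    linear_combination -h
  have hd : HasDerivAt (fun z : ℂ => 1 - z / 100 ^ (n + 1)) (-(1 / 100 ^ (n + 1))) z := by
    have := (hasDerivAt_id z).div_const ((100:ℂ) ^ (n + 1))
    simpa using this.const_sub 1
  have hF : HasDerivAt (F n) (((n + 1 : ℕ) : ℂ) * (1 - z / 100 ^ (n + 1)) ^ n * (-(1 / 100 ^ (n + 1)))) z := by
    have h := hd.fun_pow (n + 1)
    rw [Nat.add_sub_cancel] at h
    exact h
  rw [logDeriv_apply, hF.deriv, F, pow_succ (1 - z / 100 ^ (n + 1)) n]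
  have h3 := c100 n
  generalize (100 : ℂ) ^ (n + 1) = c at *
  generalize 1 - z / c = w at *
  have h2 := pow_ne_zero n h1
  field_simp

theorem logDeriv_QM (M : ℕ) {z : ℂ} (hz : ∀ n : ℕ, z ≠ 100 ^ (n + 1)) :
    z * logDeriv (QM M) z =
      ∑ n ∈ Finset.range M, ((n + 1 : ℕ) : ℂ) * (-(z / 100 ^ (n + 1) / (1 - z / 100 ^ (n + 1)))) := by
  have h : logDeriv (QM M) z = ∑ n ∈ Finset.range M, logDeriv (F n) z := by
    unfold QM
    rw [logDeriv_prod]
    · intro i _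
      have h1 : (1 : ℂ) - z / 100 ^ (i + 1) ≠ 0 := by
        intro h
        apply hz i
        have := c100 i
        field_simp at h
        linear_combination -h
      exact pow_ne_zero _ h1
    · intro i _
      exact F_differentiable i z
  rw [h, Finset.mul_sum]
  exact Finset.sum_congr rfl fun n _ => logDeriv_F n (hz n)

theorem logDeriv_Q_tendsto {z : ℂ} (hz : ∀ n : ℕ, z ≠ 100 ^ (n + 1)) :
    Tendsto (fun M => z * logDeriv (QM M) z) atTop (𝓝 (z * logDeriv (Tl 0) z)) := by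
  apply Tendsto.const_mul
  exact Complex.logDeriv_tendsto isOpen_univ (Set.mem_univ z) tendstoLU
    (Eventually.of_forall fun M => (QM_differentiable M).differentiableOn) (Q_ne hz)

theorem logDeriv_gf {z : ℂ} (h1 : Tl 0 z ≠ 0) (h2 : Tl 0 (I * z) ≠ 0) :
    z * logDeriv gf z = (I * z) * logDeriv (Tl 0) (I * z) - z * logDeriv (Tl 0) z := by
  have d1 : HasDerivAt (fun z => Tl 0 (I * z)) (deriv (Tl 0) (I * z) * I) z := by
    have ha : HasDerivAt (fun z : ℂ => I * z) I z := by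
      simpa using (hasDerivAt_id z).const_mul I
    exact ((Tl_differentiable 0) (I * z)).hasDerivAt.comp z ha
  have d2 : HasDerivAt (Tl 0) (deriv (Tl 0) z) z := (Tl_differentiable 0 z).hasDerivAt
  have d3 := d1.fun_div d2 h1
  rw [logDeriv_apply, logDeriv_apply, logDeriv_apply]
  have e : deriv gf z = (deriv (Tl 0) (I * z) * I * Tl 0 z - Tl 0 (I * z) * deriv (Tl 0) z) / Tl 0 z ^ 2 :=
    d3.deriv
  rw [e, gf]
  generalize Tl 0 (I * z) = A at *
  generalize Tl 0 z = B at *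
  generalize deriv (Tl 0) (I * z) = A' at *
  generalize deriv (Tl 0) z = B' at *
  field_simp

/-- lower bound for the logarithmic derivative in the cone around the positive axis -/
theorem logDeriv_gf_lower {z : ℂ} (h0 : 0 < z.re) (h1 : |z.im| ≤ z.re / 200) {N : ℕ} (hN : 1 ≤ N)
    (h2 : (100 : ℝ) ^ N ≤ ‖z‖) (h3 : ‖z‖ ≤ (100 : ℝ) ^ (N + 1)) (hne : ∀ n : ℕ, z ≠ 100 ^ (n + 1)) :
    1 / 1000 ≤ ‖z * logDeriv gf z‖ := by
  have hI : ∀ n : ℕ, I * z ≠ 100 ^ (n + 1) := I_mul_ne h0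
  rw [logDeriv_gf (Q_ne hne) (Q_ne hI)]
  have ht := (logDeriv_Q_tendsto hI).sub (logDeriv_Q_tendsto hne)
  refine ge_of_tendsto ht.norm ?_
  filter_upwards [eventually_ge_atTop N] with M hM
  have key := sum_psi_lower h0 h1 hN h2 h3 hne hM
  have e : ∑ n ∈ Finset.range M, ((n + 1 : ℕ) : ℂ) * psi (z / 100 ^ (n + 1)) =
      I * z * logDeriv (QM M) (I * z) - z * logDeriv (QM M) z := by
    rw [logDeriv_QM M hI, logDeriv_QM M hne, ← Finset.sum_sub_distrib]
    apply Finset.sum_congr rfl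
    intro n _
    unfold psi
    rw [mul_div_assoc I z]
    ring
  rw [e] at key
  exact key




theorem sector_mono {θ₀ ε ε' : ℝ} (h : ε ≤ ε') : sector θ₀ ε ⊆ sector θ₀ ε' := by
  rintro z ⟨r, t, hr, ht, hz⟩
  exact ⟨r, t, hr, ht.trans_le h, hz⟩

theorem polar_re (r φ : ℝ) : ((r : ℂ) * Complex.exp (φ * Complex.I)).re = r * Real.cos φ := by
  rw [Complex.re_ofReal_mul, Complex.exp_ofReal_mul_I_re]

theorem polar_im (r φ : ℝ) : ((r : ℂ) * Complex.exp (φ * Complex.I)).im = r * Real.sin φ := by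
  rw [Complex.im_ofReal_mul, Complex.exp_ofReal_mul_I_im]

theorem polar_norm {r : ℝ} (hr : 0 < r) (φ : ℝ) : ‖(r : ℂ) * Complex.exp (φ * Complex.I)‖ = r := by
  rw [norm_mul, Complex.norm_exp_ofReal_mul_I, mul_one, Complex.norm_real, Real.norm_of_nonneg hr.le]

/-- finiteness of solutions in a bounded region -/
theorem finite_solutions {K : ℕ} {k : ℕ} {w : ℂ} {D : Set ℂ} {R : ℝ}
    (hfar : ∀ z ∈ D, AnalyticAt ℂ (ff K) z → R ≤ ‖z‖ → iteratedDeriv k (ff K) z ≠ w)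
    (hex : ∃ z ∈ D, AnalyticAt ℂ (ff K) z ∧ R ≤ ‖z‖) :
    {z ∈ D | AnalyticAt ℂ (ff K) z ∧ iteratedDeriv k (ff K) z = w}.Finite := by
  have hm : MeromorphicOn (ff K) Set.univ := fun z _ => ff_meromorphicAt K z
  have hmd : MeromorphicOn (iteratedDeriv k (ff K)) Set.univ := by
    intro z _
    rw [iteratedDeriv_eq_iterate]
    exact (ff_meromorphicAt K z).iterated_deriv
  have hmh : MeromorphicOn (fun z => iteratedDeriv k (ff K) z - w) Set.univ := by
    intro z hz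
    exact (hmd z hz).fun_sub (MeromorphicAt.const w z)
  obtain ⟨z1, hz1D, hz1a, hz1R⟩ := hex
  have hne1 : meromorphicOrderAt (fun z => iteratedDeriv k (ff K) z - w) z1 ≠ ⊤ := by
    have ha : AnalyticAt ℂ (fun z => iteratedDeriv k (ff K) z - w) z1 := by
      have : AnalyticAt ℂ (iteratedDeriv k (ff K)) z1 := by
        rw [iteratedDeriv_eq_iterate]
        exact hz1a.iterated_deriv k
      exact this.sub analyticAt_const
    rw [meromorphicOrderAt_ne_top_iff_eventually_ne_zero ha.meromorphicAt]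
    have h2 : iteratedDeriv k (ff K) z1 - w ≠ 0 := sub_ne_zero.2 (hfar z1 hz1D hz1a hz1R)
    exact eventually_nhdsWithin_of_eventually_nhds (ha.continuousAt.eventually_ne h2)
  have hall : ∀ z : ℂ, ∀ᶠ y in 𝓝[≠] z, iteratedDeriv k (ff K) y - w ≠ 0 := by
    intro z
    have := MeromorphicOn.meromorphicOrderAt_ne_top_of_isPreconnected hmh isPreconnected_univ
      (Set.mem_univ z1) (Set.mem_univ z) hne1
    rwa [meromorphicOrderAt_ne_top_iff_eventually_ne_zero (hmh z (Set.mem_univ z))] at this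
  by_contra hinf
  have hinf' : {z ∈ D | AnalyticAt ℂ (ff K) z ∧ iteratedDeriv k (ff K) z = w}.Infinite := hinf
  have hsub : {z ∈ D | AnalyticAt ℂ (ff K) z ∧ iteratedDeriv k (ff K) z = w} ⊆ Metric.closedBall 0 R := by
    rintro z ⟨hzD, hza, hzw⟩
    rw [mem_closedBall_zero_iff]
    by_contra hlt
    push Not at hlt
    exact hfar z hzD hza hlt.le hzw
  obtain ⟨z0, _, hz0⟩ := hinf'.exists_accPt_of_subset_isCompact (isCompact_closedBall 0 R) hsub
  rw [accPt_iff_frequently_nhdsNE] at hz0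
  obtain ⟨y, hy1, hy2⟩ := (hz0.and_eventually (hall z0)).exists
  exact hy2 (by rw [hy1.2.2, sub_self])

theorem ff_far {K : ℕ} (hK1 : 1 ≤ K) (hK : (100 : ℝ) ^ 4 ≤ (401 / 400 : ℝ) ^ K) {z : ℂ} (h0 : 0 < z.re)
    (h1 : |z.im| ≤ z.re / 200) (hz : 100 ≤ ‖z‖) (hne : ∀ n : ℕ, z ≠ 100 ^ (n + 1)) :
    ‖z‖ / 10 ^ 7 ≤ ‖deriv (ff K) z‖ := by
  obtain ⟨N, h2, h3⟩ := exists_nat_pow_near (show (1:ℝ) ≤ ‖z‖ by linarith) (show (1:ℝ) < 100 by norm_num)
  have hN : 1 ≤ N := by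
    by_contra hN
    have : N = 0 := by omega
    subst this
    norm_num at h3
    linarith
  have hQ := Q_ne hne
  have hQI := Q_ne (I_mul_ne h0)
  have hquant := Q_norm_quant h0 h1 hN h2 h3.le
  have hlog := logDeriv_gf_lower h0 h1 hN h2 h3.le hne
  have hg0 : gf z ≠ 0 := div_ne_zero hQI hQ
  have hgn : (401 / 400 : ℝ) ^ N ≤ ‖gf z‖ ^ 2 := by
    rw [gf, norm_div, div_pow ‖Tl 0 (I * z)‖, le_div_iff₀ (by positivity)]
    exact hquant
  have hfn : ((100 : ℝ) ^ N) ^ 2 ≤ ‖ff K z‖ := by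
    apply nle_of_sq (norm_nonneg _)
    calc (((100 : ℝ) ^ N) ^ 2) ^ 2 = ((100 : ℝ) ^ 4) ^ N := by rw [← pow_mul, ← pow_mul, ← pow_mul]; congr 1; ring
      _ ≤ ((401 / 400 : ℝ) ^ K) ^ N := by gcongr
      _ = ((401 / 400 : ℝ) ^ N) ^ K := by rw [← pow_mul, ← pow_mul, mul_comm]
      _ ≤ (‖gf z‖ ^ 2) ^ K := by gcongr
      _ = ‖ff K z‖ ^ 2 := by rw [ff, norm_pow, ← pow_mul, ← pow_mul, mul_comm]
  have hder : z * deriv (ff K) z = K * ff K z * (z * logDeriv gf z) := by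
    have hd : HasDerivAt gf (deriv gf z) z := (gf_differentiableAt hQ).hasDerivAt
    have hf : HasDerivAt (ff K) (K * gf z ^ (K - 1) * deriv gf z) z := hd.fun_pow K
    rw [hf.deriv, logDeriv_apply, ff]
    obtain ⟨j, rfl⟩ : ∃ j, K = j + 1 := ⟨K - 1, by omega⟩
    rw [Nat.add_sub_cancel, pow_succ]
    field_simp
  have hnorm : ‖z‖ * ‖deriv (ff K) z‖ = K * ‖ff K z‖ * ‖z * logDeriv gf z‖ := by
    rw [← norm_mul, hder, norm_mul, norm_mul, Complex.norm_natCast]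
  have hz100 : ‖z‖ / 100 ≤ (100 : ℝ) ^ N := by
    rw [div_le_iff₀ (by norm_num)]
    rw [pow_succ] at h3
    exact h3.le
  have hzp : 0 < ‖z‖ := by linarith
  have hKr : (1:ℝ) ≤ K := by exact_mod_cast hK1
  have hf2 : (‖z‖ / 100) ^ 2 ≤ ‖ff K z‖ := le_trans (by gcongr) hfn
  have hmain : ‖z‖ * (‖z‖ / 10 ^ 7) ≤ ‖z‖ * ‖deriv (ff K) z‖ := by
    rw [hnorm]
    calc ‖z‖ * (‖z‖ / 10 ^ 7) = 1 * (‖z‖ / 100) ^ 2 * (1 / 1000) := by ring
      _ ≤ K * ‖ff K z‖ * ‖z * logDeriv gf z‖ := by gcongr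
  exact le_of_mul_le_mul_left hmain hzp

/-- `1 - u` is bounded below off the positive axis -/
theorem kappa_bound {δ : ℝ} (hδ : 0 < δ) (hδ1 : δ ≤ 1) {u : ℂ} (h : u.re ≤ (1 - δ) * ‖u‖) :
    (δ / 2) * (1 + ‖u‖) ≤ ‖1 - u‖ := by
  apply nle_of_sq (norm_nonneg _)
  have e : ‖u‖ ^ 2 = u.re ^ 2 + u.im ^ 2 := by
    rw [Complex.sq_norm, Complex.normSq_apply]; ring
  rw [nsq1]
  have hn := norm_nonneg u
  have h1 : (1 - u.re) ^ 2 + u.im ^ 2 ≥ (1 - ‖u‖) ^ 2 + 2 * δ * ‖u‖ := by nlinarith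
  have h2 : ((δ / 2) * (1 + ‖u‖)) ^ 2 ≤ (δ / 2) * (1 + ‖u‖) ^ 2 := by nlinarith [sq_nonneg (1 + ‖u‖)]
  nlinarith [sq_nonneg (1 - ‖u‖)]

theorem scale_cone {δ : ℝ} {z : ℂ} (h : z.re ≤ (1 - δ) * ‖z‖) (n : ℕ) :
    (z / 100 ^ (n + 1)).re ≤ (1 - δ) * ‖z / 100 ^ (n + 1)‖ := by
  rw [scale_re, scale_norm]
  have hp : (0:ℝ) < (1 / 100) ^ (n + 1) := by positivity
  have := mul_le_mul_of_nonneg_left h hp.le
  linarith

theorem cone_ne_pole {δ : ℝ} (hδ : 0 < δ) {z : ℂ} (h : z.re ≤ (1 - δ) * ‖z‖) (n : ℕ) :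
    z ≠ 100 ^ (n + 1) := by
  rintro rfl
  have e : (100 : ℂ) ^ (n + 1) = ((100 ^ (n + 1) : ℝ) : ℂ) := by push_cast; rfl
  rw [e, Complex.ofReal_re, Complex.norm_real, Real.norm_of_nonneg (by positivity)] at h
  have hp : (0:ℝ) < 100 ^ (n + 1) := by positivity
  nlinarith

/-- polynomial growth of `f` off the positive axis -/
theorem ff_growth (K : ℕ) {δ : ℝ} (hδ : 0 < δ) (hδ1 : δ ≤ 1) : ∃ B : ℕ, ∀ z : ℂ,
    z.re ≤ (1 - δ) * ‖z‖ → 1 ≤ ‖z‖ → ‖ff K z‖ ≤ (100 * ‖z‖) ^ B := by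
  obtain ⟨B, hB⟩ := pow_unbounded_of_one_lt (Real.exp (220 / (δ / 2)) ^ K) (show (1:ℝ) < 100 by norm_num)
  refine ⟨B, fun z hz h1 => ?_⟩
  obtain ⟨N, h2, h3⟩ := exists_nat_pow_near h1 (show (1:ℝ) < 100 by norm_num)
  have hκ : 0 < δ / 2 := by positivity
  have hup := Q_upper hκ (fun n => kappa_bound hδ hδ1 (scale_cone hz n)) h2 h3.le
  have hQ := Q_ne (cone_ne_pole hδ hz)
  have hg : ‖gf z‖ ≤ Real.exp (220 / (δ / 2)) ^ (N + 1) := by
    rw [gf, norm_div, div_le_iff₀ (norm_pos_iff.2 hQ)]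
    exact hup
  calc ‖ff K z‖ = ‖gf z‖ ^ K := by rw [ff, norm_pow]
    _ ≤ (Real.exp (220 / (δ / 2)) ^ (N + 1)) ^ K := by gcongr
    _ = (Real.exp (220 / (δ / 2)) ^ K) ^ (N + 1) := by rw [← pow_mul, ← pow_mul, mul_comm]
    _ ≤ ((100:ℝ) ^ B) ^ (N + 1) := by gcongr
    _ = (100 * (100:ℝ) ^ N) ^ B := by rw [← pow_mul, mul_comm B, pow_mul]; congr 1; ring
    _ ≤ (100 * ‖z‖) ^ B := by gcongr

theorem cauchy_cone {δ : ℝ} (hδ : 0 < δ) (hδ1 : δ ≤ 1) {z ζ : ℂ} (hz : z.re ≤ (1 - 2 * δ) * ‖z‖)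
    (h : ‖ζ - z‖ ≤ (δ / 2) * ‖z‖) : ζ.re ≤ (1 - δ) * ‖ζ‖ ∧ ‖ζ‖ ≤ 2 * ‖z‖ ∧ ‖z‖ / 2 ≤ ‖ζ‖ := by
  have h1 : ζ.re - z.re ≤ ‖ζ - z‖ := by
    have := Complex.re_le_norm (ζ - z)
    simpa using this
  have h2 : ‖z‖ - ‖ζ‖ ≤ ‖ζ - z‖ := by
    have := norm_sub_norm_le z ζ
    rwa [norm_sub_rev] at this
  have h3 : ‖ζ‖ - ‖z‖ ≤ ‖ζ - z‖ := norm_sub_norm_le ζ z
  have hn := norm_nonneg z
  refine ⟨?_, ?_, ?_⟩
  · have h4 : (1 - δ / 2) * ‖z‖ ≤ ‖ζ‖ := by linarith
    have h5 : (1 - δ) * ((1 - δ / 2) * ‖z‖) ≤ (1 - δ) * ‖ζ‖ := by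
      apply mul_le_mul_of_nonneg_left h4; linarith
    nlinarith
  · nlinarith
  · nlinarith

/-- a high derivative of `f` tends to `0` off the positive axis -/
theorem deriv_small (K : ℕ) {δ : ℝ} (hδ : 0 < δ) (hδ1 : δ ≤ 1) : ∃ k : ℕ, 1 ≤ k ∧ ∃ R : ℝ, ∀ z : ℂ,
    z.re ≤ (1 - 2 * δ) * ‖z‖ → R ≤ ‖z‖ → ‖iteratedDeriv k (ff K) z‖ < 1 := by
  obtain ⟨B, hB⟩ := ff_growth K hδ hδ1
  set C : ℝ := (B + 1).factorial * 200 ^ B / (δ / 2) ^ (B + 1) with hC
  refine ⟨B + 1, by omega, max 2 (C + 1), fun z hz hR => ?_⟩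
  have hz2 : 2 ≤ ‖z‖ := (le_max_left _ _).trans hR
  have hzC : C + 1 ≤ ‖z‖ := (le_max_right _ _).trans hR
  have hzp : 0 < ‖z‖ := by linarith
  have hRp : 0 < (δ / 2) * ‖z‖ := by positivity
  have hd : DiffContOnCl ℂ (ff K) (Metric.ball z ((δ / 2) * ‖z‖)) := by
    apply DifferentiableOn.diffContOnCl
    intro ζ hζ
    apply DifferentiableAt.differentiableWithinAt
    apply ff_differentiableAt
    have hζ' : ζ ∈ Metric.closedBall z ((δ / 2) * ‖z‖) := Metric.closure_ball_subset_closedBall hζ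
    rw [mem_closedBall_iff_norm] at hζ'
    exact Q_ne (cone_ne_pole hδ (cauchy_cone hδ hδ1 hz hζ').1)
  have hcau := Complex.norm_iteratedDeriv_le_of_forall_mem_sphere_norm_le (B + 1) hRp hd
    (C := (200 * ‖z‖) ^ B) (fun ζ hζ => by
      rw [mem_sphere_iff_norm] at hζ
      obtain ⟨c1, c2, c3⟩ := cauchy_cone hδ hδ1 hz hζ.le
      refine (hB ζ c1 (by linarith)).trans ?_
      apply pow_le_pow_left₀ (by positivity)
      linarith)
  refine lt_of_le_of_lt hcau ?_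
  have e : ((B + 1).factorial : ℝ) * (200 * ‖z‖) ^ B / ((δ / 2) * ‖z‖) ^ (B + 1) = C / ‖z‖ := by
    rw [hC, mul_pow, mul_pow, pow_succ ‖z‖]
    field_simp
  rw [e, div_lt_one hzp]
  linarith



theorem cos_near {θ₀ c : ℝ} (h : Real.cos θ₀ < c) : ∃ ε > 0, ∀ t : ℝ, |t| < ε → Real.cos (θ₀ + t) < c := by
  have hc : ContinuousAt (fun t : ℝ => Real.cos (θ₀ + t)) 0 := by fun_prop
  have h1 : ∀ᶠ t in 𝓝 (0:ℝ), Real.cos (θ₀ + t) < c := by
    apply hc.eventually_lt continuousAt_const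
    simpa using h
  obtain ⟨ε, hε, H⟩ := Metric.eventually_nhds_iff.1 h1
  exact ⟨ε, hε, fun t ht => H (by simpa [Real.dist_eq] using ht)⟩

theorem sin_near {θ₀ c : ℝ} (h : c < Real.sin θ₀) : ∃ ε > 0, ∀ t : ℝ, |t| < ε → c < Real.sin (θ₀ + t) := by
  have hc : ContinuousAt (fun t : ℝ => Real.sin (θ₀ + t)) 0 := by fun_prop
  have h1 : ∀ᶠ t in 𝓝 (0:ℝ), c < Real.sin (θ₀ + t) := by
    apply continuousAt_const.eventually_lt hc
    simpa using h
  obtain ⟨ε, hε, H⟩ := Metric.eventually_nhds_iff.1 h1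
  exact ⟨ε, hε, fun t ht => H (by simpa [Real.dist_eq] using ht)⟩

theorem expform (r θ₀ t : ℝ) : (r : ℂ) * Complex.exp ((θ₀ + t) * Complex.I) =
    (r : ℂ) * Complex.exp (((θ₀ + t : ℝ) : ℂ) * Complex.I) := by
  push_cast; rfl

/-- some value is omitted in a small sector around every direction -/
theorem omitted {K : ℕ} (hK1 : 1 ≤ K) (θ₀ : ℝ) : ∃ ε > 0, ∃ a : ℂ,
    {z ∈ sector θ₀ ε | AnalyticAt ℂ (ff K) z ∧ ff K z = a} = ∅ := by
  by_cases hs : Real.sin θ₀ = -1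
  · -- zero direction: `|f| ≤ 1`, so `2` is omitted
    have hc : Real.cos θ₀ = 0 := by
      have := Real.sin_sq_add_cos_sq θ₀
      rw [hs] at this
      nlinarith
    refine ⟨1/2, by norm_num, 2, ?_⟩
    rw [Set.eq_empty_iff_forall_notMem]
    rintro z ⟨⟨r, t, hr, ht, rfl⟩, _, hz⟩
    rw [expform] at hz
    have hneg : ((r : ℂ) * Complex.exp (((θ₀ + t : ℝ) : ℂ) * Complex.I)).re +
        ((r : ℂ) * Complex.exp (((θ₀ + t : ℝ) : ℂ) * Complex.I)).im ≤ 0 := by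
      rw [polar_re, polar_im, ← mul_add]
      apply mul_nonpos_of_nonneg_of_nonpos hr.le
      rw [Real.cos_add, Real.sin_add, hs, hc]
      have ht' := abs_lt.1 ht
      have h1 : Real.sin t ≤ 1/2 := by
        rcases le_or_gt t 0 with h | h
        · have := Real.sin_nonpos_of_nonpos_of_neg_pi_le h (by linarith [Real.pi_gt_three])
          linarith
        · have := Real.sin_lt h
          linarith
      have h2 : 1/2 ≤ Real.cos t := by
        have := Real.one_sub_sq_div_two_le_cos (x := t)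
        nlinarith
      linarith
    set z : ℂ := (r : ℂ) * Complex.exp (((θ₀ + t : ℝ) : ℂ) * Complex.I) with hzdef
    have hle := Q_norm_ge hneg
    have hg : ‖gf z‖ ≤ 1 := by
      rw [gf, norm_div]
      exact div_le_one_of_le₀ hle (norm_nonneg _)
    have hf : ‖ff K z‖ ≤ 1 := by
      rw [ff, norm_pow]
      exact pow_le_one₀ (norm_nonneg _) hg
    rw [hz] at hf
    norm_num at hf
  · have hs' : -1 < Real.sin θ₀ := lt_of_le_of_ne (Real.neg_one_le_sin θ₀) (Ne.symm hs)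
    obtain ⟨ε, hε, H⟩ := sin_near hs'
    refine ⟨ε, hε, 0, ?_⟩
    rw [Set.eq_empty_iff_forall_notMem]
    rintro z ⟨⟨r, t, hr, ht, hzeq⟩, hza, hz⟩
    rw [expform] at hzeq
    have hQ : Tl 0 z ≠ 0 := fun h => ff_not_analyticAt hK1 h hza
    have hg : gf z = 0 := by
      rw [ff] at hz
      exact pow_eq_zero_iff (by omega) |>.1 hz
    have hnum : Tl 0 (I * z) = 0 := by
      rw [gf, div_eq_zero_iff] at hg
      exact hg.resolve_right hQ
    have : ∃ n : ℕ, I * z = 100 ^ (n + 1) := by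
      by_contra hne
      push Not at hne
      exact Q_ne hne hnum
    obtain ⟨n, hn⟩ := this
    have e : (100 : ℂ) ^ (n + 1) = ((100 ^ (n + 1) : ℝ) : ℂ) := by push_cast; rfl
    rw [e] at hn
    have him := congrArg Complex.im hn
    have hre := congrArg Complex.re hn
    rw [Complex.ofReal_im] at him
    rw [Complex.ofReal_re] at hre
    simp only [Complex.mul_im, Complex.mul_re, Complex.I_re, Complex.I_im, zero_mul, one_mul, zero_add,
      zero_sub] at him hre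
    have hzre : z.re = r * Real.cos (θ₀ + t) := by rw [hzeq, polar_re]
    have hzim : z.im = r * Real.sin (θ₀ + t) := by rw [hzeq, polar_im]
    have hcos : Real.cos (θ₀ + t) = 0 := by
      rw [hzre] at him
      rcases mul_eq_zero.1 him with h | h
      · exact absurd h hr.ne'
      · exact h
    have hsin : Real.sin (θ₀ + t) < 0 := by
      have hp : (0:ℝ) < 100 ^ (n + 1) := by positivity
      rw [hzim] at hre
      by_contra hge
      push Not at hge
      nlinarith [mul_nonneg hr.le hge]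
    have h2 := Real.sin_sq_add_cos_sq (θ₀ + t)
    rw [hcos] at h2
    have h3 := H t ht
    nlinarith

/-- some derivative takes some non-zero value only finitely often in a small sector around every
direction -/
theorem deriv_finite {K : ℕ} (hK1 : 1 ≤ K) (hK : (100 : ℝ) ^ 4 ≤ (401 / 400 : ℝ) ^ K) (θ₀ : ℝ) :
    ∃ ε > 0, ∃ k : ℕ, 1 ≤ k ∧ ∃ w : ℂ, w ≠ 0 ∧
      {z ∈ sector θ₀ ε | AnalyticAt ℂ (ff K) z ∧ iteratedDeriv k (ff K) z = w}.Finite := by
  rcases (Real.cos_le_one θ₀).eq_or_lt with hc | hc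
  · -- pole direction
    have hs : Real.sin θ₀ = 0 := by
      have := Real.sin_sq_add_cos_sq θ₀
      rw [hc] at this
      nlinarith
    have hcone : ∀ r t : ℝ, 0 < r → |t| < 1/300 →
        0 < ((r : ℂ) * Complex.exp ((θ₀ + t) * Complex.I)).re ∧
        |((r : ℂ) * Complex.exp ((θ₀ + t) * Complex.I)).im| ≤
          ((r : ℂ) * Complex.exp ((θ₀ + t) * Complex.I)).re / 200 := by
      intro r t hr ht
      rw [expform, polar_re, polar_im, Real.cos_add, Real.sin_add, hc, hs]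
      simp only [one_mul, zero_mul, sub_zero, zero_add]
      have ht' := abs_lt.1 ht
      have h2 : 99/100 ≤ Real.cos t := by
        have := Real.one_sub_sq_div_two_le_cos (x := t)
        nlinarith
      have h1 : |Real.sin t| ≤ 1/300 := (Real.abs_sin_le_abs (x := t)).trans ht.le
      refine ⟨by positivity, ?_⟩
      rw [abs_mul, abs_of_pos hr]
      have : r * |Real.sin t| ≤ r * (Real.cos t / 200) := by
        apply mul_le_mul_of_nonneg_left _ hr.le
        linarith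
      linarith
    refine ⟨1/300, by norm_num, 1, le_rfl, 1, one_ne_zero, ?_⟩
    apply finite_solutions (R := 10 ^ 7 + 1)
    · rintro z ⟨r, t, hr, ht, rfl⟩ hza hzR h1
      obtain ⟨c0, c1⟩ := hcone r t hr ht
      have hne : ∀ n : ℕ, (r : ℂ) * Complex.exp ((θ₀ + t) * Complex.I) ≠ 100 ^ (n + 1) := by
        intro n hn
        apply ff_not_analyticAt hK1 _ hza
        rw [hn, Q_pole]
      have := ff_far hK1 hK c0 c1 (by linarith) hne
      rw [iteratedDeriv_one] at h1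
      rw [h1, norm_one] at this
      linarith
    · refine ⟨((10 ^ 7 + 1 : ℝ) : ℂ) * Complex.exp ((θ₀ + ((1/600 : ℝ) : ℂ)) * Complex.I),
        ⟨10 ^ 7 + 1, 1/600, by norm_num, by rw [abs_of_pos] <;> norm_num, rfl⟩, ?_, ?_⟩
      · apply ff_analyticAt
        apply Q_ne
        intro n hn
        have him := congrArg Complex.im hn
        rw [expform, polar_im, Real.sin_add, hc, hs] at him
        have e : (100 : ℂ) ^ (n + 1) = ((100 ^ (n + 1) : ℝ) : ℂ) := by push_cast; rfl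
        rw [e, Complex.ofReal_im] at him
        have hsin : 0 < Real.sin (1/600) := by
          apply Real.sin_pos_of_pos_of_lt_pi (by norm_num)
          linarith [Real.pi_gt_three]
        simp only [zero_mul, one_mul, zero_add] at him
        nlinarith
      · rw [expform, polar_norm (by norm_num)]
  · -- other directions
    set δ : ℝ := (1 - Real.cos θ₀) / 4 with hδdef
    have hδ : 0 < δ := by
      rw [hδdef]; linarith
    have hδ1 : δ ≤ 1 := by
      rw [hδdef]; linarith [Real.neg_one_le_cos θ₀]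
    have hlt : Real.cos θ₀ < 1 - 2 * δ := by
      rw [hδdef]; linarith
    obtain ⟨ε, hε, H⟩ := cos_near hlt
    obtain ⟨k, hk, R, hR⟩ := deriv_small K hδ hδ1
    have hcone : ∀ r t : ℝ, 0 < r → |t| < ε →
        ((r : ℂ) * Complex.exp ((θ₀ + t) * Complex.I)).re ≤
          (1 - 2 * δ) * ‖(r : ℂ) * Complex.exp ((θ₀ + t) * Complex.I)‖ := by
      intro r t hr ht
      rw [expform, polar_re, polar_norm hr]
      have := (H t ht).le
      nlinarith
    refine ⟨ε, hε, k, hk, 1, one_ne_zero, ?_⟩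
    apply finite_solutions (R := max R 1)
    · rintro z ⟨r, t, hr, ht, rfl⟩ _ hzR h1
      have := hR _ (hcone r t hr ht) ((le_max_left _ _).trans hzR)
      rw [h1, norm_one] at this
      exact lt_irrefl _ this
    · have hpos : 0 < max R 1 := lt_max_of_lt_right one_pos
      refine ⟨((max R 1 : ℝ) : ℂ) * Complex.exp ((θ₀ + ((0 : ℝ) : ℂ)) * Complex.I),
        ⟨max R 1, 0, hpos, by simpa using hε, rfl⟩, ?_, ?_⟩
      · apply ff_analyticAt
        apply Q_ne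
        have h2 := hcone (max R 1) 0 hpos (by simpa using hε)
        exact cone_ne_pole (δ := 2 * δ) (by positivity) h2
      · rw [expform, polar_norm hpos]

theorem not_direction {K : ℕ} (hK1 : 1 ≤ K) (hK : (100 : ℝ) ^ 4 ≤ (401 / 400 : ℝ) ^ K) (θ₀ : ℝ) :
    ¬ IsYangLoDirection (ff K) θ₀ := by
  intro h
  obtain ⟨ε1, hε1, a, ha⟩ := omitted hK1 θ₀
  obtain ⟨ε2, hε2, k, hk, w, hw, hfin⟩ := deriv_finite hK1 hK θ₀
  rcases h (min ε1 ε2) (lt_min hε1 hε2) with h1 | h1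
  · apply h1 a
    apply Set.Finite.subset (s := ∅) Set.finite_empty
    rw [← ha]
    rintro z ⟨hz, hz2⟩
    exact ⟨sector_mono (min_le_left _ _) hz, hz2⟩
  · apply h1 k hk w hw
    apply hfin.subset
    rintro z ⟨hz, hz2⟩
    exact ⟨sector_mono (min_le_right _ _) hz, hz2⟩

theorem ff_not_rational {K : ℕ} (hK1 : 1 ≤ K) : ¬ IsRational (ff K) := by
  rintro ⟨p, q, hq, hpq⟩
  apply hq
  apply Polynomial.eq_zero_of_infinite_isRoot
  have hsub : Set.range (fun n : ℕ => (100 : ℂ) ^ (n + 1)) ⊆ {x | q.IsRoot x} := by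
    rintro _ ⟨n, rfl⟩
    by_contra hne
    simp only [Set.mem_ofPred_eq, Polynomial.IsRoot.def] at hne
    have h1 := tendsto_cobounded_of_meromorphicOrderAt_neg (ff_order_neg hK1 n)
    have h2 : ∀ᶠ z in 𝓝[≠] ((100 : ℂ) ^ (n + 1)), ff K z = p.eval z / q.eval z := by
      have := hpq
      rw [Filter.EventuallyEq, Filter.Eventually, mem_codiscrete] at this
      have h3 := this ((100 : ℂ) ^ (n + 1))
      rw [Filter.disjoint_principal_right, compl_compl] at h3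
      exact h3
    have h3 : Tendsto (fun z => p.eval z / q.eval z) (𝓝[≠] ((100 : ℂ) ^ (n + 1)))
        (𝓝 (p.eval ((100 : ℂ) ^ (n + 1)) / q.eval ((100 : ℂ) ^ (n + 1)))) := by
      apply tendsto_nhdsWithin_of_tendsto_nhds
      exact (p.continuous.tendsto _).div (q.continuous.tendsto _) hne
    have h4 : Tendsto (ff K) (𝓝[≠] ((100 : ℂ) ^ (n + 1)))
        (𝓝 (p.eval ((100 : ℂ) ^ (n + 1)) / q.eval ((100 : ℂ) ^ (n + 1)))) :=
      h3.congr' (h2.mono fun _ h => h.symm)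
    exact not_tendsto_nhds_of_tendsto_atTop (tendsto_norm_cobounded_atTop.comp h1) _ h4.norm
  apply Set.Infinite.mono hsub
  apply Set.infinite_range_of_injective
  intro m n h
  exact pow_inj h



theorem counting_lower (K : ℕ) (M : ℕ) {r : ℝ} (hr : 100 ^ M ≤ r) :
    ∑ n ∈ Finset.range M, (((n + 1) * K : ℕ) : ℝ) * (Real.log r - (n + 1 : ℕ) * Real.log 100) ≤
      ValueDistribution.logCounting (ff K) ⊤ r := by
  classical
  have hr1 : 1 ≤ r := (one_le_pow₀ (by norm_num)).trans hr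
  rw [ValueDistribution.logCounting_top]
  have hle : ∑ n ∈ Finset.range M, (Function.locallyFinsuppWithin.single ((100:ℂ) ^ (n + 1))
      (((n + 1) * K : ℕ) : ℤ)) ≤ (MeromorphicOn.divisor (ff K) Set.univ)⁻ := by
    rw [Function.locallyFinsuppWithin.le_def]
    intro z
    rw [Function.locallyFinsuppWithin.coe_sum, Finset.sum_apply, Function.locallyFinsuppWithin.negPart_apply]
    by_cases hz : ∃ n : ℕ, z = 100 ^ (n + 1)
    · obtain ⟨n, rfl⟩ := hz
      rw [MeromorphicOn.divisor_apply (fun z _ => ff_meromorphicAt K z) (Set.mem_univ _), ff_order]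
      have e : ∀ m ∈ Finset.range M, (Function.locallyFinsuppWithin.single ((100:ℂ) ^ (m + 1))
          (((m + 1) * K : ℕ) : ℤ)) ((100 : ℂ) ^ (n + 1)) = if m = n then (((n + 1) * K : ℕ) : ℤ) else 0 := by
        intro m _
        rw [Function.locallyFinsuppWithin.single_apply]
        by_cases h : m = n
        · subst h; simp
        · have : (100 : ℂ) ^ (n + 1) ≠ 100 ^ (m + 1) := fun hh => h (pow_inj hh).symm
          simp [h, this]
      rw [Finset.sum_congr rfl e, Finset.sum_ite_eq' (Finset.range M) n]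
      have e2 : ((((-((n + 1) * K : ℕ) : ℤ)) : WithTop ℤ).untop₀)⁻ = (((n + 1) * K : ℕ) : ℤ) := by
        rw [WithTop.untop₀_coe, negPart_neg, posPart_eq_self.2 (Int.natCast_nonneg _)]
      rw [e2]
      split_ifs
      · exact le_rfl
      · exact Int.natCast_nonneg _
    · push Not at hz
      have e : ∀ m ∈ Finset.range M, (Function.locallyFinsuppWithin.single ((100:ℂ) ^ (m + 1))
          (((m + 1) * K : ℕ) : ℤ)) z = 0 := by
        intro m _
        rw [Function.locallyFinsuppWithin.single_apply]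
        have := hz m
        simp [this]
      rw [Finset.sum_congr rfl e, Finset.sum_const_zero]
      exact negPart_nonneg _
  refine le_trans (le_of_eq ?_) (Function.locallyFinsuppWithin.logCounting_le hle hr1)
  rw [map_sum, Finset.sum_apply]
  apply Finset.sum_congr rfl
  intro n hn
  have hn' : n + 1 ≤ M := Finset.mem_range.1 hn
  have e3 : ‖(100 : ℂ) ^ (n + 1)‖ = 100 ^ (n + 1) := by
    rw [norm_pow]; norm_num
  rw [Function.locallyFinsuppWithin.logCounting_single_eq_log_sub_const (e := (100 : ℂ) ^ (n + 1))]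
  · rw [e3, Real.log_pow]
    push_cast
    ring
  · rw [e3]
    exact (pow_le_pow_right₀ (by norm_num) hn').trans hr

theorem char_lower (K : ℕ) (M : ℕ) {r : ℝ} (hr : 100 ^ (2 * M) ≤ r) :
    (K : ℝ) * Real.log 100 / 2 * (M : ℝ) ^ 3 ≤ ValueDistribution.characteristic (ff K) ⊤ r := by
  have hr' : (100 : ℝ) ^ M ≤ r := (pow_le_pow_right₀ (by norm_num) (by omega)).trans hr
  have h1 := counting_lower K M hr'
  have hrpos : 0 < r := lt_of_lt_of_le (by positivity) hr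
  have hlog : (2 * M : ℝ) * Real.log 100 ≤ Real.log r := by
    have := Real.log_le_log (by positivity) hr
    rw [Real.log_pow] at this
    push_cast at this
    exact this
  have hl : 0 < Real.log 100 := Real.log_pos (by norm_num)
  have h2 : (K : ℝ) * Real.log 100 / 2 * (M : ℝ) ^ 3 ≤
      ∑ n ∈ Finset.range M, (((n + 1) * K : ℕ) : ℝ) * (Real.log r - (n + 1 : ℕ) * Real.log 100) := by
    have h3 : ∀ n ∈ Finset.range M, ((n + 1 : ℕ) : ℝ) * (K * (M * Real.log 100)) ≤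
        (((n + 1) * K : ℕ) : ℝ) * (Real.log r - (n + 1 : ℕ) * Real.log 100) := by
      intro n hn
      have hn' : n + 1 ≤ M := Finset.mem_range.1 hn
      have hn2 : ((n + 1 : ℕ) : ℝ) ≤ M := by exact_mod_cast hn'
      have h4 : ((n + 1 : ℕ) : ℝ) * Real.log 100 ≤ M * Real.log 100 := mul_le_mul_of_nonneg_right hn2 hl.le
      have e : ((n + 1 : ℕ) : ℝ) * (K * (M * Real.log 100)) = (((n + 1) * K : ℕ) : ℝ) * (M * Real.log 100) := by
        push_cast; ring
      rw [e]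
      apply mul_le_mul_of_nonneg_left _ (Nat.cast_nonneg _)
      linarith
    refine le_trans ?_ (Finset.sum_le_sum h3)
    rw [← Finset.sum_mul]
    have h5 : (M : ℝ) ^ 2 / 2 ≤ ∑ n ∈ Finset.range M, ((n + 1 : ℕ) : ℝ) := by
      clear * -
      induction M with
      | zero => simp
      | succ m ih =>
        rw [Finset.sum_range_succ]
        push_cast at ih ⊢
        nlinarith
    have h6 : (0:ℝ) ≤ K * (M * Real.log 100) := by positivity
    calc (K : ℝ) * Real.log 100 / 2 * (M : ℝ) ^ 3 = ((M : ℝ) ^ 2 / 2) * (K * (M * Real.log 100)) := by ring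
      _ ≤ _ := mul_le_mul_of_nonneg_right h5 h6
  have h7 : ValueDistribution.characteristic (ff K) ⊤ r =
      ValueDistribution.proximity (ff K) ⊤ r + ValueDistribution.logCounting (ff K) ⊤ r := rfl
  have h8 : 0 ≤ ValueDistribution.proximity (ff K) ⊤ r := ValueDistribution.proximity_nonneg r
  rw [h7]
  linarith

theorem char_cubic (K : ℕ) (r : ℝ) (hr : 100 ^ 2 ≤ r) :
    (K : ℝ) * (1 / (128 * Real.log 100 ^ 2)) * Real.log r ^ 3 ≤ ValueDistribution.characteristic (ff K) ⊤ r := by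
  have hl : 0 < Real.log 100 := Real.log_pos (by norm_num)
  obtain ⟨M, h2, h3⟩ := exists_nat_pow_near (show (1:ℝ) ≤ r by linarith) (show (1:ℝ) < 100 ^ 2 by norm_num)
  rw [← pow_mul] at h2 h3
  have hM : 1 ≤ M := by
    by_contra h
    have : M = 0 := by omega
    subst this
    norm_num at h3
    linarith
  have hM' : (1:ℝ) ≤ M := by exact_mod_cast hM
  have hrpos : 0 < r := by linarith
  have hlog : Real.log r ≤ 4 * Real.log 100 * M := by
    have := Real.log_le_log hrpos h3.le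
    rw [Real.log_pow] at this
    push_cast at this
    nlinarith
  have hlog0 : 0 ≤ Real.log r := Real.log_nonneg (by linarith)
  refine le_trans ?_ (char_lower K M h2)
  calc (K : ℝ) * (1 / (128 * Real.log 100 ^ 2)) * Real.log r ^ 3
      ≤ (K : ℝ) * (1 / (128 * Real.log 100 ^ 2)) * (4 * Real.log 100 * M) ^ 3 := by
        apply mul_le_mul_of_nonneg_left _ (by positivity)
        exact pow_le_pow_left₀ hlog0 hlog 3
    _ = _ := by
        field_simp
        ring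

theorem char_tendsto {K : ℕ} (hK : 1 ≤ K) :
    Tendsto (fun r : ℝ => ValueDistribution.characteristic (ff K) ⊤ r / Real.log r ^ 2) atTop atTop := by
  have hl : 0 < Real.log 100 := Real.log_pos (by norm_num)
  have hK' : (0:ℝ) < K := by exact_mod_cast hK
  have hc : (0:ℝ) < (K : ℝ) * (1 / (128 * Real.log 100 ^ 2)) := by positivity
  have h1 : Tendsto (fun r : ℝ => (K : ℝ) * (1 / (128 * Real.log 100 ^ 2)) * Real.log r) atTop atTop :=
    Real.tendsto_log_atTop.const_mul_atTop hc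
  refine tendsto_atTop_mono' _ ?_ h1
  filter_upwards [eventually_ge_atTop ((100:ℝ) ^ 2)] with r hr
  have hlog : 0 < Real.log r := Real.log_pos (by linarith)
  rw [le_div_iff₀ (by positivity)]
  calc (K : ℝ) * (1 / (128 * Real.log 100 ^ 2)) * Real.log r * Real.log r ^ 2
      = (K : ℝ) * (1 / (128 * Real.log 100 ^ 2)) * Real.log r ^ 3 := by ring
    _ ≤ _ := char_cubic K r hr

theorem exists_K (C : ℝ) : ∃ K : ℕ, 1 ≤ K ∧ (100 : ℝ) ^ 4 ≤ (401 / 400 : ℝ) ^ K ∧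
    C ≤ (K : ℝ) * (1 / (128 * Real.log 100 ^ 2)) := by
  have hl : 0 < Real.log 100 := Real.log_pos (by norm_num)
  obtain ⟨K₁, hK₁⟩ := pow_unbounded_of_one_lt ((100:ℝ) ^ 4) (show (1:ℝ) < 401/400 by norm_num)
  obtain ⟨K₂, hK₂⟩ := exists_nat_ge (C * (128 * Real.log 100 ^ 2))
  refine ⟨K₁ + K₂ + 1, by omega, ?_, ?_⟩
  · exact hK₁.le.trans (pow_le_pow_right₀ (by norm_num) (by omega))
  · rw [mul_one_div, le_div_iff₀ (by positivity)]
    refine hK₂.trans ?_
    push_cast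
    have : (0:ℝ) ≤ K₁ := Nat.cast_nonneg _
    linarith

/-- **Yang Lo's direction theorem fails without its growth hypothesis, and its growth hypothesis is
sharp.** For every constant `C` there is a meromorphic function `f` on `ℂ` (in normal form) which is
not rational, with `T(r,f)/(log r)² → ∞`, even with `T(r,f) ≥ C (log r)³` for all large `r`, and with
no Yang Lo direction. -/
theorem result : ∀ C : ℝ, ∃ f : ℂ → ℂ,
    MeromorphicNFOn f Set.univ ∧
    ¬ IsRational f ∧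
    Tendsto (fun r : ℝ => ValueDistribution.characteristic f ⊤ r / Real.log r ^ 2) atTop atTop ∧
    (∀ᶠ r : ℝ in atTop, C * Real.log r ^ 3 ≤ ValueDistribution.characteristic f ⊤ r) ∧
    ∀ θ₀ : ℝ, ¬ IsYangLoDirection f θ₀ := by
  intro C
  obtain ⟨K, hK1, hK2, hK3⟩ := exists_K C
  refine ⟨ff K, ff_NF hK1, ff_not_rational hK1, char_tendsto hK1, ?_, not_direction hK1 hK2⟩
  filter_upwards [eventually_ge_atTop ((100:ℝ) ^ 2)] with r hr
  refine le_trans ?_ (char_cubic K r hr)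
  have hlog : 0 ≤ Real.log r := Real.log_nonneg (by linarith)
  exact mul_le_mul_of_nonneg_right hK3 (by positivity)

end Pool.Agent.Results.MP_bf5cf5_an.NoDirection
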